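import Pool.Agent.Lib_helper28.TE28.Sp

/-!
# Generic elements of the symplectic Lie algebra
-/

set_option autoImplicit false

namespace Pool.Agent.RP

open Matrix Pool.Agent.RF

/-- The signed basis vectors. -/
def sgn (R : Type*) [Ring R] {g : ℕ} : Fin g ⊕ Fin g → Fin g → R
  | Sum.inl i => Pi.single i 1
  | Sum.inr i => -Pi.single i 1

/-- Differences of signed basis vectors. -/
theorem sgn_unique {R : Type*} [Field R] (h2 : (2 : R) ≠ 0) {g : ℕ} (z : Fin g)
    (a b : Fin g ⊕ Fin g)
    (h : sgn R a - sgn R b = sgn R (Sum.inl z) - sgn R (Sum.inr z)) :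
    a = Sum.inl z ∧ b = Sum.inr z := by
  have h1 : (1 : R) ≠ 0 := one_ne_zero
  have h4 : (4 : R) ≠ 0 := by
    have : (4 : R) = 2 * 2 := by norm_num
    rw [this]
    exact mul_ne_zero h2 h2
  have key : ∀ j, sgn R a j - sgn R b j = if j = z then 2 else 0 := by
    intro j
    have := congrFun h j
    rw [Pi.sub_apply, Pi.sub_apply] at this
    rw [this]
    simp only [sgn, Pi.neg_apply, Pi.single_apply]
    by_cases hj : j = z
    · rw [if_pos hj, if_pos hj]; ring
    · rw [if_neg hj, if_neg hj]; ring
  rcases a with i | i <;> rcases b with j | j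
  · exfalso
    simp only [sgn] at key
    by_cases hi : i = z
    · subst hi
      have h5 := key i
      rw [Pi.single_eq_same, if_pos rfl, Pi.single_apply] at h5
      by_cases hj : i = j
      · rw [if_pos hj] at h5
        exact h2 (by linear_combination -h5)
      · rw [if_neg hj] at h5
        exact h1 (by linear_combination -h5)
    · have h5 := key i
      rw [Pi.single_eq_same, if_neg hi, Pi.single_apply] at h5
      by_cases hj : i = j
      · subst hj
        have h6 := key z
        rw [if_pos rfl, sub_self] at h6
        exact h2 h6.symm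
      · rw [if_neg hj] at h5
        exact h1 (by linear_combination h5)
  · simp only [sgn, Pi.neg_apply, sub_neg_eq_add] at key
    have hi : i = z := by
      by_contra hi
      have h5 := key i
      rw [Pi.single_eq_same, if_neg hi, Pi.single_apply] at h5
      by_cases hj : i = j
      · rw [if_pos hj] at h5
        exact h2 (by linear_combination h5)
      · rw [if_neg hj] at h5
        exact h1 (by linear_combination h5)
    have hj : j = z := by
      by_contra hj
      have h5 := key j
      rw [Pi.single_eq_same, if_neg hj, Pi.single_apply] at h5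
      by_cases hij : j = i
      · rw [if_pos hij] at h5
        exact h2 (by linear_combination h5)
      · rw [if_neg hij] at h5
        exact h1 (by linear_combination h5)
    exact ⟨by rw [hi], by rw [hj]⟩
  · exfalso
    simp only [sgn, Pi.neg_apply] at key
    by_cases hi : i = z
    · subst hi
      have h5 := key i
      rw [Pi.single_eq_same, if_pos rfl, Pi.single_apply] at h5
      by_cases hj : i = j
      · rw [if_pos hj] at h5
        exact h4 (by linear_combination -h5)
      · rw [if_neg hj] at h5
        -- `-1 = 2`
        have h6 := key j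
        rw [Pi.single_eq_same, if_neg (fun h => hj h.symm), Pi.single_apply, if_neg (fun h => hj h.symm)]
          at h6
        exact h1 (by linear_combination -h6)
    · have h5 := key i
      rw [Pi.single_eq_same, if_neg hi, Pi.single_apply] at h5
      by_cases hj : i = j
      · rw [if_pos hj] at h5
        exact h2 (by linear_combination -h5)
      · rw [if_neg hj] at h5
        exact h1 (by linear_combination -h5)
  · exfalso
    simp only [sgn, Pi.neg_apply] at key
    by_cases hi : i = z
    · subst hi
      have h5 := key i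
      rw [Pi.single_eq_same, if_pos rfl, Pi.single_apply] at h5
      by_cases hj : i = j
      · rw [if_pos hj] at h5
        exact h2 (by linear_combination -h5)
      · have h6 := key j
        rw [Pi.single_eq_same, if_neg (fun h => hj h.symm), Pi.single_apply,
          if_neg (fun h => hj h.symm)] at h6
        exact h1 (by linear_combination h6)
    · have h5 := key i
      rw [Pi.single_eq_same, if_neg hi, Pi.single_apply] at h5
      by_cases hj : i = j
      · subst hj
        have h6 := key z
        rw [if_pos rfl, sub_self] at h6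
        exact h2 h6.symm
      · rw [if_neg hj] at h5
        exact h1 (by linear_combination -h5)

theorem sgn_inj {R : Type*} [Field R] (h2 : (2 : R) ≠ 0) {g : ℕ} :
    Function.Injective (sgn R (g := g)) := by
  have h1 : (1 : R) ≠ 0 := one_ne_zero
  intro a b h
  rcases a with i | i <;> rcases b with j | j
  · simp only [sgn] at h
    have h5 := congrFun h i
    rw [Pi.single_eq_same, Pi.single_apply] at h5
    by_cases hj : i = j
    · rw [hj]
    · rw [if_neg hj] at h5
      exact absurd h5 h1
  · exfalso
    simp only [sgn] at h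
    have h5 := congrFun h i
    rw [Pi.single_eq_same, Pi.neg_apply, Pi.single_apply] at h5
    by_cases hj : i = j
    · rw [if_pos hj] at h5
      exact h2 (by linear_combination h5)
    · rw [if_neg hj] at h5
      exact h1 (by linear_combination h5)
  · exfalso
    simp only [sgn] at h
    have h5 := congrFun h i
    rw [Pi.neg_apply, Pi.single_eq_same, Pi.single_apply] at h5
    by_cases hj : i = j
    · rw [if_pos hj] at h5
      exact h2 (by linear_combination -h5)
    · rw [if_neg hj] at h5
      exact h1 (by linear_combination -h5)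
  · simp only [sgn] at h
    have h5 := congrFun h i
    rw [Pi.neg_apply, Pi.neg_apply, Pi.single_eq_same, Pi.single_apply] at h5
    by_cases hj : i = j
    · rw [hj]
    · rw [if_neg hj] at h5
      exact absurd (by linear_combination -h5) h1

/-- Generic eigenvalues. -/
theorem exists_generic {k : Type*} [Field k] [Infinite k] {p : ℕ} [hp : Fact p.Prime] [CharP k p]
    (hp2 : p ≠ 2) {g : ℕ} (z : Fin g) :
    ∃ t : Fin g → k, Function.Injective (Sum.elim t (-t)) ∧
      ∀ a b, Sum.elim t (-t) a - Sum.elim t (-t) b =
        Sum.elim t (-t) (Sum.inl z) - Sum.elim t (-t) (Sum.inr z) → a = Sum.inl z ∧ b = Sum.inr z := by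
  classical
  letI : Algebra (ZMod p) k := ZMod.algebra k p
  have hinf : ¬ Module.Finite (ZMod p) k := by
    intro h
    have : Finite k := Module.finite_of_finite (ZMod p)
    exact not_finite k
  have hrank : (g : Cardinal) ≤ Module.rank (ZMod p) k := by
    have h1 : Cardinal.aleph0 ≤ Module.rank (ZMod p) k := by
      rw [← not_lt]
      intro h
      exact hinf (Module.rank_lt_aleph0_iff.1 h)
    exact (Cardinal.natCast_le_aleph0).trans h1
  obtain ⟨t, ht⟩ := Module.le_rank_iff.1 hrank
  have h2 : (2 : ZMod p) ≠ 0 := by
    intro h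
    have h3 : ((2 : ℕ) : ZMod p) = 0 := by exact_mod_cast h
    rw [ZMod.natCast_eq_zero_iff] at h3
    exact hp2 ((Nat.prime_dvd_prime_iff_eq hp.out Nat.prime_two).1 h3)
  have hs : ∀ a, Sum.elim t (-t) a = ∑ i, sgn (ZMod p) a i • t i := by
    intro a
    rcases a with i | i
    · simp only [Sum.elim_inl, sgn]
      rw [Finset.sum_eq_single i]
      · rw [Pi.single_eq_same, one_smul]
      · intro j _ hj
        rw [Pi.single_eq_of_ne hj, zero_smul]
      · intro h
        exact absurd (Finset.mem_univ _) h
    · simp only [Sum.elim_inr, sgn, Pi.neg_apply]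
      rw [Finset.sum_eq_single i]
      · rw [Pi.single_eq_same, neg_smul, one_smul]
      · intro j _ hj
        rw [Pi.single_eq_of_ne hj, neg_zero, zero_smul]
      · intro h
        exact absurd (Finset.mem_univ _) h
  have hli : ∀ c d : Fin g → ZMod p, ∑ i, c i • t i = ∑ i, d i • t i → c = d := by
    intro c d h
    have h3 : ∑ i, (c i - d i) • t i = 0 := by
      simp only [sub_smul]
      rw [Finset.sum_sub_distrib, h, sub_self]
    funext i
    exact sub_eq_zero.1 (Fintype.linearIndependent_iff.1 ht _ h3 i)
  refine ⟨t, ?_, ?_⟩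
  · intro a b h
    rw [hs, hs] at h
    exact sgn_inj h2 (hli _ _ h)
  · intro a b h
    rw [hs, hs, hs, hs, ← Finset.sum_sub_distrib, ← Finset.sum_sub_distrib] at h
    simp only [← sub_smul] at h
    exact sgn_unique h2 z a b (hli _ _ h)

section

variable {F : Type*} [Field F] {k : Type*} [Field k] [Algebra F k] {g : ℕ}

theorem hat_single' {n : Type*} [Fintype n] [DecidableEq n] (i : n) :
    hat k (Pi.single i (1 : F) : n → F) = Pi.single i (1 : k) := by
  funext j
  by_cases hij : j = i
  · subst hij
    simp [hat]
  · simp [hat, hij]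

theorem row_inl (i : Fin g) : (Pi.single (Sum.inl i) (1 : F) : Fin g ⊕ Fin g → F) ᵥ*
    Matrix.J (Fin g) F = -Pi.single (Sum.inr i) 1 := by
  funext j
  rw [Matrix.single_one_vecMul, Matrix.row_apply, Matrix.J]
  rcases j with j | j
  · rw [Matrix.fromBlocks_apply₁₁, Matrix.zero_apply, Pi.neg_apply, Pi.single_apply,
      if_neg (by simp), neg_zero]
  · rw [Matrix.fromBlocks_apply₁₂, Matrix.neg_apply, Pi.neg_apply, Pi.single_apply,
      Matrix.one_apply]
    simp [eq_comm]

theorem row_inr (i : Fin g) : (Pi.single (Sum.inr i) (1 : F) : Fin g ⊕ Fin g → F) ᵥ*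
    Matrix.J (Fin g) F = Pi.single (Sum.inl i) 1 := by
  funext j
  rw [Matrix.single_one_vecMul, Matrix.row_apply, Matrix.J]
  rcases j with j | j
  · rw [Matrix.fromBlocks_apply₂₁, Pi.single_apply, Matrix.one_apply]
    simp [eq_comm]
  · rw [Matrix.fromBlocks_apply₂₂, Matrix.zero_apply, Pi.single_apply, if_neg (by simp)]

/-- A space of matrices that contains all `Nk u u` contains the diagonal matrices `(t, -t)` and the
root vectors of the long roots. -/
theorem diag_mem (W : Submodule k (Matrix (Fin g ⊕ Fin g) (Fin g ⊕ Fin g) k))
    (hW : ∀ u : Fin g ⊕ Fin g → F, Nk k (Matrix.J (Fin g) F) u u ∈ W) :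
    (∀ t : Fin g → k, Matrix.diagonal (Sum.elim t (-t)) ∈ W) ∧
      ∀ i : Fin g, Matrix.single (Sum.inl i) (Sum.inr i) (1 : k) ∈ W := by
  have hhat : ∀ x : Fin g ⊕ Fin g → F, hat k (-x) = -hat k x := by
    intro x
    funext i
    simp [hat]
  have hroot : ∀ i : Fin g, Matrix.single (Sum.inl i) (Sum.inr i) (1 : k) ∈ W := by
    intro i
    have h1 := W.neg_mem (hW (Pi.single (Sum.inl i) 1))
    have h2 : -Nk k (Matrix.J (Fin g) F) (Pi.single (Sum.inl i) 1) (Pi.single (Sum.inl i) 1) =
        Matrix.single (Sum.inl i) (Sum.inr i) (1 : k) := by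
      unfold Nk
      rw [row_inl, hhat, hat_single', hat_single', vecMulVec_neg, neg_neg,
        Matrix.single_eq_single_vecMulVec_single]
    rwa [h2] at h1
  have hdiag : ∀ i : Fin g, Matrix.single (Sum.inl i) (Sum.inl i) (1 : k) -
      Matrix.single (Sum.inr i) (Sum.inr i) (1 : k) ∈ W := by
    intro i
    set x : Fin g ⊕ Fin g → F := Pi.single (Sum.inl i) 1 with hx
    set y : Fin g ⊕ Fin g → F := Pi.single (Sum.inr i) 1 with hy
    have h1 := W.sub_mem (W.sub_mem (hW (x + y)) (hW x)) (hW y)
    have h2 : Nk k (Matrix.J (Fin g) F) (x + y) (x + y) - Nk k (Matrix.J (Fin g) F) x x -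
        Nk k (Matrix.J (Fin g) F) y y = Nk k (Matrix.J (Fin g) F) x y +
        Nk k (Matrix.J (Fin g) F) y x := by
      rw [Nk_add_left, Nk_add_right, Nk_add_right]
      abel
    have h3 : Nk k (Matrix.J (Fin g) F) x y = Matrix.single (Sum.inl i) (Sum.inl i) (1 : k) := by
      unfold Nk
      rw [hx, hy, row_inr, hat_single', Matrix.single_eq_single_vecMulVec_single]
    have h4 : Nk k (Matrix.J (Fin g) F) y x = -Matrix.single (Sum.inr i) (Sum.inr i) (1 : k) := by
      unfold Nk
      rw [hx, hy, row_inl, hhat, hat_single', vecMulVec_neg,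
        Matrix.single_eq_single_vecMulVec_single]
    rw [h2, h3, h4, ← sub_eq_add_neg] at h1
    exact h1
  refine ⟨fun t => ?_, hroot⟩
  have h1 : Matrix.diagonal (Sum.elim t (-t)) = ∑ i, t i •
      (Matrix.single (Sum.inl i) (Sum.inl i) (1 : k) - Matrix.single (Sum.inr i) (Sum.inr i) 1) := by
    ext a b
    rw [Matrix.sum_apply]
    rcases a with a | a
    · rw [Finset.sum_eq_single a]
      · by_cases hb : b = Sum.inl a
        · subst hb
          simp [Matrix.single_apply]
        · rw [Matrix.diagonal_apply_ne _ (fun h => hb h.symm)]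
          simp [Matrix.single_apply, fun h => hb h, eq_comm]
      · intro c _ hc
        simp [Matrix.single_apply, hc]
      · intro h
        exact absurd (Finset.mem_univ _) h
    · rw [Finset.sum_eq_single a]
      · by_cases hb : b = Sum.inr a
        · subst hb
          simp [Matrix.single_apply]
        · rw [Matrix.diagonal_apply_ne _ (fun h => hb h.symm)]
          simp [Matrix.single_apply, eq_comm, fun h => hb h]
      · intro c _ hc
        simp [Matrix.single_apply, hc]
      · intro h
        exact absurd (Finset.mem_univ _) h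
  rw [h1]
  exact W.sum_mem fun i _ => W.smul_mem _ (hdiag i)

end

end Pool.Agent.RP
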