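import Pool.Agent.Lib_helper29.RP.Red
import Pool.Agent.Lib_helper7.TE.T7

/-!
# Root vectors from the reduction
-/

set_option autoImplicit false

namespace Pool.Agent.RP

open Matrix Pool.Agent.NF Polynomial

/-- A root vector, when the difference of the eigenvalues occurs only once. -/
theorem root_single {k : Type*} [Field k] {n : Type*} [Fintype n] [DecidableEq n] (l : n → k)
    (S : Submodule k (Matrix n n k))
    (hS : ∀ Y ∈ S, Matrix.diagonal l * Y - Y * Matrix.diagonal l ∈ S) {Y : Matrix n n k}
    (hY : Y ∈ S) {x y : n} (hl : ∀ i j, l i - l j = l x - l y → i = x ∧ j = y)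
    (h0 : Y x y ≠ 0) : Matrix.single x y 1 ∈ S := by
  classical
  have step : ∀ V : Finset k, (Matrix.of fun i j => Y i j * ∏ v ∈ V, (l i - l j - v)) ∈ S := by
    intro V
    induction V using Finset.induction_on with
    | empty =>
      have : (Matrix.of fun i j => Y i j * ∏ v ∈ (∅ : Finset k), (l i - l j - v)) = Y := by
        ext i j; simp
      rw [this]; exact hY
    | insert v V hv ih =>
      have h1 := hS _ ih
      have h2 := S.sub_mem h1 (S.smul_mem v ih)
      convert h2 using 1
      ext i j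
      simp only [Matrix.of_apply, Matrix.sub_apply, Matrix.diagonal_mul, Matrix.mul_diagonal,
        Matrix.smul_apply, smul_eq_mul, Finset.prod_insert hv]
      ring
  set V := (Finset.univ.image (fun q : n × n => l q.1 - l q.2)).erase (l x - l y) with hV
  have key := step V
  have hc : Y x y * ∏ v ∈ V, (l x - l y - v) ≠ 0 := by
    refine mul_ne_zero h0 (Finset.prod_ne_zero_iff.2 fun v hv => ?_)
    rw [hV, Finset.mem_erase] at hv
    exact sub_ne_zero.2 hv.1.symm
  have heq : (Matrix.of fun i j => Y i j * ∏ v ∈ V, (l i - l j - v)) =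
      (Y x y * ∏ v ∈ V, (l x - l y - v)) • Matrix.single x y 1 := by
    ext i j
    rw [Matrix.of_apply, Matrix.smul_apply, smul_eq_mul]
    by_cases hij : i = x ∧ j = y
    · obtain ⟨rfl, rfl⟩ := hij
      rw [Matrix.single_apply_same, mul_one]
    · have h1 : Matrix.single x y (1 : k) i j = 0 := by
        rw [Matrix.single_apply]
        rw [if_neg]
        rintro ⟨h2, h3⟩
        exact hij ⟨h2.symm, h3.symm⟩
      rw [h1, mul_zero]
      have hne : l i - l j ≠ l x - l y := fun h => hij (hl i j h)
      have hmem : l i - l j ∈ V := by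
        rw [hV, Finset.mem_erase]
        exact ⟨hne, Finset.mem_image_of_mem (fun q : n × n => l q.1 - l q.2)
          (Finset.mem_univ (i, j))⟩
      rw [Finset.prod_eq_zero hmem (sub_self _), mul_zero]
  rw [heq] at key
  have := S.smul_mem (Y x y * ∏ v ∈ V, (l x - l y - v))⁻¹ key
  rwa [smul_smul, inv_mul_cancel₀ hc, one_smul] at this

/-- Polynomials in a conjugate of a diagonal matrix. -/
theorem aeval_conj {R k : Type*} [CommRing R] [Field k] [Algebra R k] {m n : Type*} [Fintype m]
    [DecidableEq m] [Fintype n] [DecidableEq n] {P : Matrix m n k} {Q : Matrix n m k}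
    (hPQ : P * Q = 1) (hQP : Q * P = 1) (d : n → k) (q : R[X]) :
    aeval (P * Matrix.diagonal d * Q) q = P * Matrix.diagonal (fun i => aeval (d i) q) * Q := by
  induction q using Polynomial.induction_on' with
  | add p q hp hq =>
    rw [map_add, hp, hq, ← Matrix.add_mul, ← Matrix.mul_add, Matrix.diagonal_add]
    simp only [map_add]
  | monomial j a =>
    rw [← Polynomial.C_mul_X_pow_eq_monomial, map_mul, aeval_C, map_pow, aeval_X]
    have hp : ∀ j : ℕ, (P * Matrix.diagonal d * Q) ^ j = P * Matrix.diagonal (fun i => d i ^ j) * Q := by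
      intro j
      induction j with
      | zero =>
        simp only [pow_zero]
        have : (Matrix.diagonal fun _ : n => (1 : k)) = 1 := Matrix.diagonal_one
        rw [this, Matrix.mul_one, hPQ]
      | succ j ih =>
        rw [pow_succ, ih]
        calc P * Matrix.diagonal (fun i => d i ^ j) * Q * (P * Matrix.diagonal d * Q)
            = P * (Matrix.diagonal (fun i => d i ^ j) * (Q * P) * Matrix.diagonal d) * Q := by
              simp only [Matrix.mul_assoc]
          _ = _ := by
              rw [hQP, Matrix.mul_one, Matrix.diagonal_mul_diagonal]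
              simp only [pow_succ]
    rw [hp, ← Algebra.smul_def, ← Matrix.smul_mul, ← Matrix.mul_smul, ← Matrix.diagonal_smul]
    congr 3
    funext i
    rw [map_mul, aeval_C, map_pow, aeval_X, Pi.smul_apply, Algebra.smul_def]

section

variable {C : Type*} [Field C] [IsAlgClosed C] {A : ValuationSubring C} {Γ : Type*} [Group Γ]
  {D : ℕ} {ρ : Γ →* Matrix (Fin D) (Fin D) C}
  {ρ' : Γ →* Matrix (Fin D) (Fin D) (IsLocalRing.ResidueField A)}

/-- **Rank one elements from the reduction.** -/
theorem exists_rank_one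
    (hspan : Submodule.span (IsLocalRing.ResidueField A) (Set.range ρ') = ⊤)
    (htr : ∀ γ, ∃ t : A, (t : C) = (ρ γ).trace ∧ IsLocalRing.residue A t = (ρ' γ).trace)
    (hint : ∀ (r : MonoidAlgebra A Γ) (c : C), (nfl_phi A ρ r).charpoly.IsRoot c → c ∈ A)
    (S : Submodule C (Matrix (Fin D) (Fin D) C)) (hbr : ∀ x ∈ S, ∀ y ∈ S, x * y - y * x ∈ S)
    {n : Type*} [Fintype n] [DecidableEq n]
    {P : Matrix (Fin D) n (IsLocalRing.ResidueField A)}
    {Q : Matrix n (Fin D) (IsLocalRing.ResidueField A)} (hPQ : P * Q = 1) (hQP : Q * P = 1)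
    (hn : Fintype.card n = D)
    (τ : n → IsLocalRing.ResidueField A) (hτ : Function.Injective τ) {a₀ b₀ : n} (hab : a₀ ≠ b₀)
    (hu : ∀ a b, τ a - τ b = τ a₀ - τ b₀ → a = a₀ ∧ b = b₀)
    (h1 : P * Matrix.diagonal τ * Q ∈ redS A ρ ρ' S)
    {Y : Matrix (Fin D) (Fin D) (IsLocalRing.ResidueField A)} (hY : Y ∈ redS A ρ ρ' S)
    (hY0 : (Q * Y * P) a₀ b₀ ≠ 0) :
    ∃ v f : Fin D → C, v ≠ 0 ∧ f ≠ 0 ∧ f ⬝ᵥ v = 0 ∧ vecMulVec v f ∈ S := by
  classical
  obtain ⟨rh, hh1, hh2⟩ := h1
  obtain ⟨ry, hy1, hy2⟩ := hY
  set X := nfl_phi A ρ rh with hX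
  -- the eigenvalues
  obtain ⟨l, hl⟩ := Pool.Agent.TE.te7_enum X.charpoly (Matrix.charpoly_monic X)
    (m := D) (by rw [Matrix.charpoly_natDegree_eq_dim, Fintype.card_fin])
  have hlA : ∀ i, l i ∈ A := by
    intro i
    apply hint rh
    rw [← hX, hl, Polynomial.IsRoot.def, Polynomial.eval_prod]
    exact Finset.prod_eq_zero (Finset.mem_univ i) (by simp)
  let m : Fin D → A := fun i => ⟨l i, hlA i⟩
  have hm : ∀ i, (m i : C) = l i := fun i => rfl
  -- every `τ a` is the reduction of an eigenvalue
  have hex : ∀ a, ∃ i, IsLocalRing.residue A (m i) = τ a := by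
    let q : A[X] := ∏ i, (Polynomial.X - Polynomial.C (m i))
    have hq1 : aeval X q = 0 := by
      have h2 : q.map (algebraMap A C) = X.charpoly := by
        rw [hl, Polynomial.map_prod]
        refine Finset.prod_congr rfl fun i _ => ?_
        rw [Polynomial.map_sub, Polynomial.map_X, Polynomial.map_C]
        rfl
      rw [← Polynomial.aeval_map_algebraMap C X q, h2, Matrix.aeval_self_charpoly]
    have hq2 : nfl_phi A ρ (aeval rh q) = 0 := by
      rw [← Polynomial.aeval_algHom_apply, ← hX, hq1]
    have hq3 := nfl_ker A hspan htr hq2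
    rw [← Polynomial.aeval_algHom_apply, hh2, aeval_conj hPQ hQP] at hq3
    have hq4 : Matrix.diagonal (fun i => aeval (τ i) q) = 0 := by
      calc Matrix.diagonal (fun i => aeval (τ i) q)
          = (Q * P) * Matrix.diagonal (fun i => aeval (τ i) q) * (Q * P) := by
            rw [hQP, one_mul, mul_one]
        _ = Q * (P * Matrix.diagonal (fun i => aeval (τ i) q) * Q) * P := by
            simp only [Matrix.mul_assoc]
        _ = 0 := by rw [hq3, Matrix.mul_zero, Matrix.zero_mul]
    intro a
    have hq5 := congrFun (congrFun hq4 a) a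
    rw [Matrix.diagonal_apply_eq, Matrix.zero_apply, map_prod, Finset.prod_eq_zero_iff] at hq5
    obtain ⟨i, -, hi⟩ := hq5
    refine ⟨i, ?_⟩
    rw [map_sub, aeval_X, aeval_C, sub_eq_zero, IsLocalRing.ResidueField.algebraMap_eq] at hi
    exact hi.symm
  choose e he using hex
  have hei : Function.Injective e := by
    intro a b hab
    apply hτ
    rw [← he a, ← he b, hab]
  have heb : Function.Bijective e := by
    rw [Fintype.bijective_iff_injective_and_card]
    exact ⟨hei, by rw [hn, Fintype.card_fin]⟩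
  have hli : Function.Injective l := by
    intro i j hij
    obtain ⟨a, rfl⟩ := heb.2 i
    obtain ⟨b, rfl⟩ := heb.2 j
    congr 1
    apply hτ
    rw [← he a, ← he b]
    congr 1
    exact Subtype.ext hij
  obtain ⟨P', Q', hPQ', hQP', hD⟩ := Pool.Agent.TE.te7_diag X l hli hl
  have hXd : X = P' * Matrix.diagonal l * Q' := by
    rw [← hD]
    calc X = (P' * Q') * X * (P' * Q') := by rw [hPQ', one_mul, mul_one]
      _ = _ := by simp only [Matrix.mul_assoc]
  -- the space in the coordinates of eigenvectors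
  let f : Matrix (Fin D) (Fin D) C →ₗ[C] Matrix (Fin D) (Fin D) C :=
    { toFun := fun Z => P' * Z * Q'
      map_add' := fun Y Z => by rw [mul_add, add_mul]
      map_smul' := fun c Y => by rw [RingHom.id_apply, mul_smul_comm, smul_mul_assoc] }
  let S' := S.comap f
  have hS' : ∀ Z, Z ∈ S' ↔ P' * Z * Q' ∈ S := fun _ => Iff.rfl
  have hback : ∀ Z, P' * (Q' * Z * P') * Q' = Z := by
    intro Z
    calc P' * (Q' * Z * P') * Q' = (P' * Q') * Z * (P' * Q') := by simp only [Matrix.mul_assoc]
      _ = Z := by rw [hPQ', one_mul, mul_one]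
  have hbrS : ∀ Z ∈ S', Matrix.diagonal l * Z - Z * Matrix.diagonal l ∈ S' := by
    intro Z hZ
    rw [hS'] at hZ ⊢
    have h2 := hbr X hh1 _ hZ
    have h3 : P' * (Matrix.diagonal l * Z - Z * Matrix.diagonal l) * Q' =
        X * (P' * Z * Q') - P' * Z * Q' * X := by
      rw [hXd]
      calc P' * (Matrix.diagonal l * Z - Z * Matrix.diagonal l) * Q'
          = P' * Matrix.diagonal l * 1 * Z * Q' - P' * Z * 1 * Matrix.diagonal l * Q' := by
            noncomm_ring
        _ = _ := by rw [← hQP']; noncomm_ring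
    rw [h3]
    exact h2
  have hZ : Q' * nfl_phi A ρ ry * P' ∈ S' := by
    rw [hS', hback]
    exact hy1
  set Z := Q' * nfl_phi A ρ ry * P' with hZdef
  have hlu : ∀ i j, l i - l j = l (e a₀) - l (e b₀) → i = e a₀ ∧ j = e b₀ := by
    intro i j hij
    obtain ⟨a, rfl⟩ := heb.2 i
    obtain ⟨b, rfl⟩ := heb.2 j
    have h2 : m (e a) - m (e b) = m (e a₀) - m (e b₀) := Subtype.ext hij
    have h3 := congrArg (IsLocalRing.residue A) h2
    rw [map_sub, map_sub, he, he, he, he] at h3
    obtain ⟨rfl, rfl⟩ := hu a b h3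
    exact ⟨rfl, rfl⟩
  have hZ0 : Z (e a₀) (e b₀) ≠ 0 := by
    intro hz
    let qq : n → A[X] := fun c => ∏ b ∈ Finset.univ.erase c, (Polynomial.X - Polynomial.C (m (e b)))
    have hqq : ∀ c i, i ≠ e c → aeval (l i) (qq c) = 0 := by
      intro c i hi
      obtain ⟨b, rfl⟩ := heb.2 i
      have hbc : b ≠ c := fun h => hi (by rw [h])
      rw [map_prod]
      refine Finset.prod_eq_zero (Finset.mem_erase.2 ⟨hbc, Finset.mem_univ b⟩) ?_
      rw [map_sub, aeval_X, aeval_C]
      exact sub_self _
    have hqq' : ∀ c, aeval (τ c) (qq c) ≠ 0 := by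
      intro c
      rw [map_prod]
      refine Finset.prod_ne_zero_iff.2 fun b hb => ?_
      rw [map_sub, aeval_X, aeval_C, IsLocalRing.ResidueField.algebraMap_eq, he, sub_ne_zero]
      intro h
      exact (Finset.mem_erase.1 hb).1 (hτ h).symm
    have h2 : nfl_phi A ρ (aeval rh (qq a₀) * ry * aeval rh (qq b₀)) = 0 := by
      rw [map_mul, map_mul, ← Polynomial.aeval_algHom_apply, ← Polynomial.aeval_algHom_apply, ← hX,
        hXd, aeval_conj hPQ' hQP', aeval_conj hPQ' hQP']
      have h3 : P' * Matrix.diagonal (fun i => aeval (l i) (qq a₀)) * Q' * nfl_phi A ρ ry *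
          (P' * Matrix.diagonal (fun i => aeval (l i) (qq b₀)) * Q') =
          P' * (Matrix.diagonal (fun i => aeval (l i) (qq a₀)) * Z *
            Matrix.diagonal (fun i => aeval (l i) (qq b₀))) * Q' := by
        rw [hZdef]
        simp only [Matrix.mul_assoc]
      rw [h3]
      have h4 : Matrix.diagonal (fun i => aeval (l i) (qq a₀)) * Z *
            Matrix.diagonal (fun i => aeval (l i) (qq b₀)) = 0 := by
        ext i j
        rw [Matrix.mul_diagonal, Matrix.diagonal_mul, Matrix.zero_apply]
        by_cases hi : i = e a₀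
        · by_cases hj : j = e b₀
          · rw [hi, hj, hz, mul_zero, zero_mul]
          · rw [hqq _ _ hj, mul_zero]
        · rw [hqq _ _ hi, zero_mul, zero_mul]
      rw [h4, Matrix.mul_zero, Matrix.zero_mul]
    have h3 := nfl_ker A hspan htr h2
    rw [map_mul, map_mul, ← Polynomial.aeval_algHom_apply, ← Polynomial.aeval_algHom_apply, hh2,
      aeval_conj hPQ hQP, aeval_conj hPQ hQP, hy2] at h3
    have h4 : Matrix.diagonal (fun i => aeval (τ i) (qq a₀)) * (Q * Y * P) *
        Matrix.diagonal (fun i => aeval (τ i) (qq b₀)) = 0 := by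
      calc Matrix.diagonal (fun i => aeval (τ i) (qq a₀)) * (Q * Y * P) *
            Matrix.diagonal (fun i => aeval (τ i) (qq b₀))
          = (Q * P) * Matrix.diagonal (fun i => aeval (τ i) (qq a₀)) * (Q * Y * P) *
            Matrix.diagonal (fun i => aeval (τ i) (qq b₀)) * (Q * P) := by
            rw [hQP, one_mul, mul_one]
        _ = Q * (P * Matrix.diagonal (fun i => aeval (τ i) (qq a₀)) * Q * Y *
            (P * Matrix.diagonal (fun i => aeval (τ i) (qq b₀)) * Q)) * P := by
            simp only [Matrix.mul_assoc]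
        _ = 0 := by rw [h3, Matrix.mul_zero, Matrix.zero_mul]
    have h5 := congrFun (congrFun h4 a₀) b₀
    rw [Matrix.mul_diagonal, Matrix.diagonal_mul, Matrix.zero_apply] at h5
    exact mul_ne_zero (mul_ne_zero (hqq' a₀) hY0) (hqq' b₀) h5
  have hs := root_single l S' hbrS hZ hlu hZ0
  rw [hS'] at hs
  have hne : e a₀ ≠ e b₀ := fun h => hab (hei h)
  refine ⟨fun i => P' i (e a₀), fun j => Q' (e b₀) j, ?_, ?_, ?_, ?_⟩
  · intro h
    have h2 := congrFun (congrFun hQP' (e a₀)) (e a₀)
    rw [Matrix.mul_apply, Matrix.one_apply_eq] at h2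
    have h3 : ∀ i, P' i (e a₀) = 0 := fun i => congrFun h i
    simp only [h3, mul_zero, Finset.sum_const_zero] at h2
    exact zero_ne_one h2
  · intro h
    have h2 := congrFun (congrFun hQP' (e b₀)) (e b₀)
    rw [Matrix.mul_apply, Matrix.one_apply_eq] at h2
    have h3 : ∀ i, Q' (e b₀) i = 0 := fun i => congrFun h i
    simp only [h3, zero_mul, Finset.sum_const_zero] at h2
    exact zero_ne_one h2
  · have h2 := congrFun (congrFun hQP' (e b₀)) (e a₀)
    rw [Matrix.mul_apply, Matrix.one_apply_ne hne.symm] at h2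
    exact h2
  · have h2 : vecMulVec (fun i => P' i (e a₀)) (fun j => Q' (e b₀) j) =
        P' * Matrix.single (e a₀) (e b₀) 1 * Q' := by
      ext i j
      rw [vecMulVec_apply, Matrix.mul_apply, Finset.sum_eq_single (e b₀)]
      · rw [Matrix.mul_apply, Finset.sum_eq_single (e a₀)]
        · rw [Matrix.single_apply_same, mul_one]
        · intro x _ hx
          rw [Matrix.single_apply_of_ne, mul_zero]
          exact fun h => hx h.1.symm
        · intro h
          exact absurd (Finset.mem_univ _) h
      · intro x _ hx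
        rw [Matrix.mul_apply, Finset.sum_eq_zero, zero_mul]
        intro y _
        rw [Matrix.single_apply_of_ne, mul_zero]
        exact fun h => hx h.2.symm
      · intro h
        exact absurd (Finset.mem_univ _) h
    rw [h2]
    exact hs

end

end Pool.Agent.RP
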