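import Pool.Agent.Lib_helper28.TE28.Sp

/-!
# Spaces of matrices closed under brackets and stable under the symplectic group
-/

set_option autoImplicit false
set_option linter.unusedSectionVars false

namespace Pool.Agent.RP

open Matrix Pool.Agent.RF

section

variable {F : Type*} [Field F] {k : Type*} [Field k] [Algebra F k] {n : Type*} [Fintype n]
  [DecidableEq n] {J : Matrix n n F}

theorem hat_inj {x : n → F} (h : hat k x = 0) : x = 0 := by
  funext i
  have h1 := congrFun h i
  have h2 : algebraMap F k (x i) = 0 := h1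
  exact (map_eq_zero _).1 h2

theorem hat_vecMul (x : n → F) : hat k (x ᵥ* J) = hat k x ᵥ* J.map (algebraMap F k) := by
  funext i
  simp [hat, Matrix.vecMul, dotProduct]

theorem vecMul_ne (hdet : IsUnit J.det) {x : n → F} (hx : x ≠ 0) : x ᵥ* J ≠ 0 := by
  intro h
  obtain ⟨y, hy⟩ := exists_om_ne hdet hx
  apply hy
  unfold om
  rw [h, zero_dotProduct]

theorem hat_single (i : n) : hat k (Pi.single i (1 : F) : n → F) = Pi.single i (1 : k) := by
  funext j
  by_cases hij : j = i
  · subst hij
    simp [hat]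
  · simp [hat, hij]

/-- A matrix commuting with all `Nk u u` is scalar. -/
theorem scalar_of_comm (hdet : IsUnit J.det) (X : Matrix n n k)
    (h : ∀ u : n → F, Nk k J u u * X = X * Nk k J u u) : ∃ l : k, X = l • 1 := by
  have h1 : ∀ u : n → F, ∃ l : k, hat k u ᵥ* Xᵀ = l • hat k u := by
    intro u
    rw [Matrix.vecMul_transpose]
    by_cases hu : u = 0
    · refine ⟨0, ?_⟩
      have : hat k u = 0 := by
        rw [hu]
        funext i
        simp [hat]
      rw [this, Matrix.mulVec_zero, smul_zero]
    obtain ⟨j, hj⟩ : ∃ j, hat k (u ᵥ* J) j ≠ 0 := by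
      by_contra hne
      push Not at hne
      exact vecMul_ne hdet hu (hat_inj (funext hne))
    have h2 := h u
    unfold Nk at h2
    rw [vecMulVec_mul, mul_vecMulVec] at h2
    refine ⟨(hat k (u ᵥ* J) j)⁻¹ * ((hat k (u ᵥ* J)) ᵥ* X) j, ?_⟩
    funext i
    have h3 := congrFun (congrFun h2 i) j
    rw [vecMulVec_apply, vecMulVec_apply] at h3
    rw [Pi.smul_apply, smul_eq_mul, mul_assoc, mul_comm ((hat k (u ᵥ* J) ᵥ* X) j), h3, mul_comm,
      mul_assoc, mul_inv_cancel₀ hj, mul_one]
  obtain ⟨l, hl⟩ := scalar_of_left Xᵀ h1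
  refine ⟨l, ?_⟩
  rw [← Matrix.transpose_transpose X, hl, Matrix.transpose_smul, Matrix.transpose_one]

variable (W : Submodule k (Matrix n n k))

/-- A space closed under brackets and stable under transvections that contains a matrix which is
not scalar contains all `Nk u u`. -/
theorem mem_all (h2 : (2 : k) ≠ 0) (hJ : ∀ x, om J x x = 0) (hJt : Jᵀ = -J) (hdet : IsUnit J.det)
    (hW : ∀ (c : F) (x : n → F), ∀ Y ∈ W,
      (1 + algebraMap F k c • Nk k J x x) * Y * (1 - algebraMap F k c • Nk k J x x) ∈ W)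
    (hbr : ∀ X ∈ W, ∀ Y ∈ W, X * Y - Y * X ∈ W) {X : Matrix n n k} (hX : X ∈ W)
    (hXs : ∀ l : k, X ≠ l • 1) : ∀ u : n → F, Nk k J u u ∈ W := by
  set Jk : Matrix n n k := J.map (algebraMap F k) with hJk
  have hJkt : Jkᵀ = -Jk := by
    rw [hJk, ← Matrix.transpose_map, hJt]
    ext i j
    simp
  have hJkd : IsUnit Jk.det := by
    have : Jk.det = algebraMap F k J.det := by
      rw [hJk]
      exact ((algebraMap F k).map_det J).symm
    rw [this]
    exact hdet.map _
  have hc1 : ∀ (x : n → F), ∀ Y ∈ W, (1 + Nk k J x x) * Y * (1 - Nk k J x x) ∈ W := by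
    intro x Y hY
    have := hW 1 x Y hY
    rwa [map_one, one_smul] at this
  have hc2 : ∀ (x : n → F), ∀ Y ∈ W, (1 - Nk k J x x) * Y * (1 + Nk k J x x) ∈ W := by
    intro x Y hY
    have := hW (-1) x Y hY
    rwa [map_neg, map_one, neg_smul, one_smul, ← sub_eq_add_neg, sub_neg_eq_add] at this
  have hN : ∀ x, Nk k J x x * Nk k J x x = 0 := by
    intro x
    rw [Nk_mul, hJ, map_zero, zero_smul]
  -- one of the rank one matrices belongs to `W`
  have key : ∃ v : n → F, v ≠ 0 ∧ Nk k J v v ∈ W := by
    by_contra hcon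
    push Not at hcon
    have hq : ∀ Y ∈ W, ∀ x : n → F, hat k (x ᵥ* J) ⬝ᵥ Y *ᵥ hat k x = 0 := by
      intro Y hY x
      by_contra hne
      have hx : x ≠ 0 := by
        rintro rfl
        apply hne
        have : hat k (0 : n → F) = 0 := by
          funext i
          simp [hat]
        rw [this, Matrix.mulVec_zero, dotProduct_zero]
      apply hcon x hx
      have h3 := W.add_mem (W.sub_mem (hc1 x Y hY) hY) (W.sub_mem (hc2 x Y hY) hY)
      have h4 : (1 + Nk k J x x) * Y * (1 - Nk k J x x) - Y +
          ((1 - Nk k J x x) * Y * (1 + Nk k J x x) - Y) =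
          (-2 : k) • (Nk k J x x * Y * Nk k J x x) := by
        have : (-2 : k) • (Nk k J x x * Y * Nk k J x x) =
            -(Nk k J x x * Y * Nk k J x x) - (Nk k J x x * Y * Nk k J x x) := by
          module
        rw [this]
        noncomm_ring
      rw [h4, Nk_mul_mul, smul_smul] at h3
      have h5 : (-2 : k) * (hat k (x ᵥ* J) ⬝ᵥ Y *ᵥ hat k x) ≠ 0 :=
        mul_ne_zero (neg_ne_zero.2 h2) hne
      have h6 := W.smul_mem ((-2 : k) * (hat k (x ᵥ* J) ⬝ᵥ Y *ᵥ hat k x))⁻¹ h3
      rwa [smul_smul, inv_mul_cancel₀ h5, one_smul] at h6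
    -- all elements are self-adjoint
    have hself : ∀ Y ∈ W, Yᵀ * Jk = Jk * Y := by
      intro Y hY
      have h3 : ∀ x z : n → F, hat k (x ᵥ* J) ⬝ᵥ Y *ᵥ hat k z + hat k (z ᵥ* J) ⬝ᵥ Y *ᵥ hat k x
          = 0 := by
        intro x z
        have h4 := hq Y hY (x + z)
        rw [Matrix.add_vecMul, hat_add, hat_add, Matrix.mulVec_add, add_dotProduct,
          dotProduct_add, dotProduct_add, hq Y hY, hq Y hY, zero_add, add_zero] at h4
        exact h4
      have h4 : ∀ x z : n → F, hat k (x ᵥ* J) ⬝ᵥ Y *ᵥ hat k z = hat k x ⬝ᵥ (Jk * Y) *ᵥ hat k z := by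
        intro x z
        rw [hat_vecMul, ← Matrix.dotProduct_mulVec, Matrix.mulVec_mulVec]
      have h5 : (Jk * Y)ᵀ = -(Jk * Y) := by
        ext i j
        have h6 := h3 (Pi.single i 1) (Pi.single j 1)
        rw [h4, h4, hat_single, hat_single] at h6
        simp only [Matrix.mulVec_single_one, single_one_dotProduct, Matrix.col_apply] at h6
        rw [Matrix.transpose_apply, Matrix.neg_apply]
        exact eq_neg_of_add_eq_zero_right h6
      rw [Matrix.transpose_mul, hJkt, Matrix.mul_neg, neg_inj] at h5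
      exact h5
    have hcomm : ∀ Y ∈ W, ∀ Z ∈ W, Y * Z = Z * Y := by
      intro Y hY Z hZ
      have h3 := hself _ (hbr Y hY Z hZ)
      rw [Matrix.transpose_sub, Matrix.transpose_mul, Matrix.transpose_mul, Matrix.sub_mul,
        Matrix.mul_assoc, hself Y hY, Matrix.mul_assoc, hself Z hZ, ← Matrix.mul_assoc,
        hself Z hZ, ← Matrix.mul_assoc, hself Y hY] at h3
      have h4 : (2 : k) • (Jk * (Y * Z - Z * Y)) = 0 := by
        have h5 : Jk * Z * Y - Jk * Y * Z = -(Jk * (Y * Z - Z * Y)) := by
          noncomm_ring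
        rw [h5] at h3
        rw [two_smul]
        nth_rewrite 1 [← h3]
        exact neg_add_cancel _
      have h5 : Jk * (Y * Z - Z * Y) = 0 := (smul_eq_zero.1 h4).resolve_left h2
      have h6 : Y * Z - Z * Y = 0 := by
        calc Y * Z - Z * Y = Jk⁻¹ * (Jk * (Y * Z - Z * Y)) := by
              rw [← Matrix.mul_assoc, Matrix.nonsing_inv_mul _ hJkd, Matrix.one_mul]
          _ = 0 := by rw [h5, Matrix.mul_zero]
      exact sub_eq_zero.1 h6
    -- `aX = Xa` for all `a`
    obtain ⟨l, hl⟩ := scalar_of_comm hdet X (fun u => by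
      set a := Nk k J u u with ha
      have haX : a * X * a = 0 := by
        rw [ha, Nk_mul_mul, hq X hX, zero_smul]
      have hZ : a * X - X * a ∈ W := by
        have h3 := W.sub_mem (hc1 u X hX) hX
        have h4 : (1 + Nk k J u u) * X * (1 - Nk k J u u) - X = a * X - X * a - a * X * a := by
          rw [ha]
          noncomm_ring
        rwa [h4, haX, sub_zero] at h3
      set Z := a * X - X * a with hZdef
      have hZZ : Z * Z = 0 := by
        have h3 : Z * Z = a * X * a * X - a * (X * X) * a - X * (a * a) * X + X * (a * X * a) := by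
          rw [hZdef]
          noncomm_ring
        have h4 : a * (X * X) * a = 0 := by
          rw [ha, Nk_mul_mul]
          have h5 : hat k (u ᵥ* J) ⬝ᵥ (X * X) *ᵥ hat k u = 0 := by
            have h6 : hat k (u ᵥ* J) ⬝ᵥ (X * X) *ᵥ hat k u =
                (X *ᵥ hat k u) ⬝ᵥ Jk *ᵥ (X *ᵥ hat k u) := by
              rw [hat_vecMul, ← Matrix.dotProduct_mulVec, Matrix.mulVec_mulVec,
                ← Matrix.mul_assoc, ← hself X hX, Matrix.mul_assoc, ← Matrix.mulVec_mulVec,
                Matrix.dotProduct_mulVec, Matrix.vecMul_transpose, Matrix.mulVec_mulVec]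
            rw [h6]
            set y := X *ᵥ hat k u with hy
            have h7 : y ⬝ᵥ Jk *ᵥ y = -(y ⬝ᵥ Jk *ᵥ y) := by
              nth_rewrite 1 [Matrix.dotProduct_mulVec, ← Matrix.mulVec_transpose, hJkt,
                Matrix.neg_mulVec, neg_dotProduct, dotProduct_comm]
              rfl
            have h8 : (2 : k) * (y ⬝ᵥ Jk *ᵥ y) = 0 := by linear_combination h7
            exact (mul_eq_zero.1 h8).resolve_left h2
          rw [h5, zero_smul]
        rw [h3, haX, h4, hN, Matrix.zero_mul, Matrix.mul_zero, Matrix.zero_mul]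
        simp
      -- `Z b Z = 0`
      have hZbZ : ∀ x : n → F, Z * Nk k J x x * Z = 0 := by
        intro x
        have hbZ : Nk k J x x * Z * Nk k J x x = 0 := by
          rw [Nk_mul_mul, hq Z hZ, zero_smul]
        have h3 := W.sub_mem (hc1 x Z hZ) hZ
        have h4 : (1 + Nk k J x x) * Z * (1 - Nk k J x x) - Z =
            Nk k J x x * Z - Z * Nk k J x x - Nk k J x x * Z * Nk k J x x := by
          noncomm_ring
        rw [h4, hbZ, sub_zero] at h3
        have h5 := hcomm Z hZ _ h3
        have h6 : (2 : k) • (Z * Nk k J x x * Z) = 0 := by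
          have h7 : Z * (Nk k J x x * Z - Z * Nk k J x x) -
              (Nk k J x x * Z - Z * Nk k J x x) * Z = (2 : k) • (Z * Nk k J x x * Z) -
              (Z * Z) * Nk k J x x - Nk k J x x * (Z * Z) := by
            rw [two_smul]
            noncomm_ring
          rw [h5, sub_self, hZZ, Matrix.zero_mul, Matrix.mul_zero, sub_zero, sub_zero] at h7
          exact h7.symm
        exact (smul_eq_zero.1 h6).resolve_left h2
      have hZ0 : Z = 0 := by
        have h3 : ∀ x : n → F, Z *ᵥ hat k x = 0 := by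
          intro x
          have h4 := hZbZ x
          unfold Nk at h4
          rw [Matrix.mul_assoc, vecMulVec_mul, mul_vecMulVec, hat_vecMul, Matrix.vecMul_vecMul,
            ← hself Z hZ] at h4
          have h5 : hat k x ᵥ* (Zᵀ * Jk) = (Z *ᵥ hat k x) ᵥ* Jk := by
            rw [← Matrix.vecMul_vecMul, Matrix.vecMul_transpose]
          rw [h5] at h4
          by_contra hne
          obtain ⟨i, hi⟩ := Function.ne_iff.1 hne
          have h6 : (Z *ᵥ hat k x) ᵥ* Jk = 0 := by
            funext j
            have h7 := congrFun (congrFun h4 i) j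
            rw [vecMulVec_apply, Matrix.zero_apply] at h7
            exact (mul_eq_zero.1 h7).resolve_left hi
          apply hne
          calc Z *ᵥ hat k x = (Z *ᵥ hat k x) ᵥ* Jk ᵥ* Jk⁻¹ := by
                rw [Matrix.vecMul_vecMul, Matrix.mul_nonsing_inv _ hJkd, Matrix.vecMul_one]
            _ = 0 := by rw [h6, Matrix.zero_vecMul]
        ext i j
        have h4 := congrFun (h3 (Pi.single j 1)) i
        rw [hat_single, Matrix.mulVec_single_one, Matrix.col_apply] at h4
        exact h4
      rw [hZdef] at hZ0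
      exact sub_eq_zero.1 hZ0)
    exact hXs l hl
  obtain ⟨v, hv0, hv⟩ := key
  have h1 := transitive hJ hdet {u | Nk k J u u ∈ W} (by
    intro c x u hu
    rw [Set.mem_ofPred_eq] at hu ⊢
    rw [← conj_Nk k hJ]
    exact hW c x _ hu) (show v ∈ {u | Nk k J u u ∈ W} from hv) hv0
  intro u
  by_cases hu : u = 0
  · subst hu
    have : Nk k J (0 : n → F) 0 = 0 := by
      have h3 := Nk_smul_left k J (0 : F) v v
      rw [zero_smul, map_zero, zero_smul] at h3
      have h4 := Nk_smul_right k J (0 : F) (0 : n → F) v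
      rw [zero_smul, map_zero, zero_smul] at h4
      exact h4
    rw [this]
    exact W.zero_mem
  · exact h1 u hu

end

end Pool.Agent.RP
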