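import Pool.Agent.Lib_helper29.RP.Dual
import Pool.Agent.Lib_helper29.RP.Sp
import Pool.Agent.Lib_helper29.RP.Gen
import Pool.Agent.Lib_helper29.RP.Root
import Pool.Agent.Lib_helper28.TE28.SpEnd
import Pool.Agent.Lib_helper48.TD.D6

/-!
# Stable Lie algebras of a representation whose reduction contains a symplectic group
-/

set_option autoImplicit false
set_option linter.unusedSectionVars false

namespace Pool.Agent.RP

open Matrix Pool.Agent.NF Pool.Agent.RF

section

variable {F : Type} [Field F] {k : Type*} [Field k] [Algebra F k] {g d : ℕ}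

/-- A space closed under products that contains all `P (Nk u u) Q` is everything. -/
theorem mul_top {P : Matrix (Fin d) (Fin g ⊕ Fin g) k} {Q : Matrix (Fin g ⊕ Fin g) (Fin d) k}
    (hPQ : P * Q = 1) (hQP : Q * P = 1) (W : Submodule k (Matrix (Fin d) (Fin d) k))
    (hmul : ∀ A ∈ W, ∀ B ∈ W, A * B ∈ W)
    (h1 : ∀ x : Fin g ⊕ Fin g → F, P * Nk k (Matrix.J (Fin g) F) x x * Q ∈ W) : W = ⊤ := by
  classical
  set J := Matrix.J (Fin g) F with hJ
  have hJs : ∀ x, om J x x = 0 := om_J_self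
  have hJd : IsUnit J.det := J_det_unit
  have h2 : ∀ x y z w, P * Nk k J x y * Q * (P * Nk k J z w * Q) =
      algebraMap F k (om J y z) • (P * Nk k J x w * Q) := by
    intro x y z w
    calc P * Nk k J x y * Q * (P * Nk k J z w * Q) = P * (Nk k J x y * (Q * P) * Nk k J z w) * Q := by
          simp only [Matrix.mul_assoc]
      _ = _ := by rw [hQP, Matrix.mul_one, Nk_mul, Matrix.mul_smul, Matrix.smul_mul]
  have h3 : ∀ x y, om J x y ≠ 0 → P * Nk k J x y * Q ∈ W := by
    intro x y hxy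
    have h4 := hmul _ (h1 x) _ (h1 y)
    rw [h2] at h4
    have h5 : algebraMap F k (om J x y) ≠ 0 := (map_ne_zero _).mpr hxy
    have h6 := Submodule.smul_mem _ (algebraMap F k (om J x y))⁻¹ h4
    rwa [smul_smul, inv_mul_cancel₀ h5, one_smul] at h6
  have h4 : ∀ x y, P * Nk k J x y * Q ∈ W := by
    intro x y
    by_cases hx : x = 0
    · have h5 : Nk k J x y = 0 := by
        have := Nk_smul_left k J (0 : F) x y
        rw [zero_smul, map_zero, zero_smul] at this
        rw [hx]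
        exact this
      rw [h5, Matrix.mul_zero, Matrix.zero_mul]
      exact Submodule.zero_mem _
    by_cases hy : y = 0
    · have h5 : Nk k J x y = 0 := by
        have := Nk_smul_right k J (0 : F) x y
        rw [zero_smul, map_zero, zero_smul] at this
        rw [hy]
        exact this
      rw [h5, Matrix.mul_zero, Matrix.zero_mul]
      exact Submodule.zero_mem _
    obtain ⟨z, hz1, hz2⟩ : ∃ z, om J x z ≠ 0 ∧ om J z y ≠ 0 := by
      obtain ⟨a, ha⟩ := exists_om_ne hJd hx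
      obtain ⟨b, hb⟩ := exists_om_ne hJd hy
      have hb' : om J b y ≠ 0 := by
        rw [om_skew hJs, neg_ne_zero]
        exact hb
      by_cases h5 : om J a y = 0
      · by_cases h6 : om J x b = 0
        · refine ⟨a + b, ?_, ?_⟩
          · rw [om_add_right, h6, add_zero]
            exact ha
          · rw [om_add_left, h5, zero_add]
            exact hb'
        · exact ⟨b, h6, hb'⟩
      · exact ⟨a, ha, h5⟩
    have h5 := hmul _ (hmul _ (h1 x) _ (h1 z)) _ (h1 y)
    rw [h2, smul_mul_assoc, h2, smul_smul] at h5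
    have h6 : algebraMap F k (om J x z) * algebraMap F k (om J z y) ≠ 0 :=
      mul_ne_zero ((map_ne_zero _).mpr hz1) ((map_ne_zero _).mpr hz2)
    have h7 := Submodule.smul_mem _ (algebraMap F k (om J x z) * algebraMap F k (om J z y))⁻¹ h5
    rwa [smul_smul, inv_mul_cancel₀ h6, one_smul] at h7
  have h5 : ∀ i j, P * (Matrix.single i j (1 : k) : Matrix (Fin g ⊕ Fin g) (Fin g ⊕ Fin g) k) * Q ∈
      W := by
    intro i j
    have h6 := h4 (Pi.single i 1) (Pi.single j 1 ᵥ* J⁻¹)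
    have h7 : Nk k J (Pi.single i 1) (Pi.single j 1 ᵥ* J⁻¹) = Matrix.single i j (1 : k) := by
      unfold Nk
      rw [Matrix.vecMul_vecMul, Matrix.nonsing_inv_mul _ hJd, Matrix.vecMul_one, hat_single,
        hat_single]
      rw [Matrix.single_eq_single_vecMulVec_single]
    rwa [h7] at h6
  rw [eq_top_iff]
  intro X _
  have h6 : X = P * (Q * X * P) * Q := by
    calc X = (P * Q) * X * (P * Q) := by rw [hPQ, one_mul, mul_one]
      _ = P * (Q * X * P) * Q := by simp only [Matrix.mul_assoc]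
  rw [h6, Matrix.matrix_eq_sum_single (Q * X * P), Matrix.mul_sum, Matrix.sum_mul]
  apply Submodule.sum_mem
  intro i _
  rw [Matrix.mul_sum, Matrix.sum_mul]
  apply Submodule.sum_mem
  intro j _
  have h7 : Matrix.single i j ((Q * X * P) i j) = (Q * X * P) i j • Matrix.single i j (1 : k) := by
    rw [Matrix.smul_single, smul_eq_mul, mul_one]
  rw [h7, Matrix.mul_smul, Matrix.smul_mul]
  exact Submodule.smul_mem _ _ (h5 i j)

variable {Γ : Type*} [Group Γ] (r : Γ →* Matrix (Fin d) (Fin d) k)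
  {P : Matrix (Fin d) (Fin g ⊕ Fin g) k} {Q : Matrix (Fin g ⊕ Fin g) (Fin d) k}

/-- Stable spaces closed under brackets contain the symplectic Lie algebra. -/
theorem sp_mem (h2 : (2 : k) ≠ 0) (hPQ : P * Q = 1) (hQP : Q * P = 1)
    (h : ∀ A ∈ Matrix.symplecticGroup (Fin g) F, ∃ σ, r σ = P * A.map (algebraMap F k) * Q)
    (W : Submodule k (Matrix (Fin d) (Fin d) k)) (hbr : ∀ X ∈ W, ∀ Y ∈ W, X * Y - Y * X ∈ W)
    (hconj : ∀ γ, ∀ x ∈ W, r γ * x * r γ⁻¹ ∈ W) {Y : Matrix (Fin d) (Fin d) k} (hY : Y ∈ W)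
    (hYs : ∀ l : k, Y ≠ l • 1) (u : Fin g ⊕ Fin g → F) :
    P * Nk k (Matrix.J (Fin g) F) u u * Q ∈ W := by
  let f : Matrix (Fin g ⊕ Fin g) (Fin g ⊕ Fin g) k →ₗ[k] Matrix (Fin d) (Fin d) k :=
    { toFun := fun Y => P * Y * Q
      map_add' := fun A B => by rw [Matrix.mul_add, Matrix.add_mul]
      map_smul' := fun c A => by rw [Matrix.mul_smul, Matrix.smul_mul, RingHom.id_apply] }
  have hf : ∀ Z, Z ∈ W.comap f ↔ P * Z * Q ∈ W := fun _ => Iff.rfl
  have hback : ∀ X : Matrix (Fin d) (Fin d) k, P * (Q * X * P) * Q = X := by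
    intro X
    calc P * (Q * X * P) * Q = (P * Q) * X * (P * Q) := by simp only [Matrix.mul_assoc]
      _ = X := by rw [hPQ, one_mul, mul_one]
  have hmul : ∀ A B : Matrix (Fin g ⊕ Fin g) (Fin g ⊕ Fin g) k, P * (A * B) * Q =
      (P * A * Q) * (P * B * Q) := by
    intro A B
    calc P * (A * B) * Q = P * (A * 1 * B) * Q := by rw [Matrix.mul_one]
      _ = _ := by rw [← hQP]; simp only [Matrix.mul_assoc]
  have h3 := mem_all (F := F) (J := Matrix.J (Fin g) F) (W.comap f) h2 om_J_self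
    (Matrix.J_transpose _ _) J_det_unit (by
      intro c x Z hZ
      rw [hf] at hZ ⊢
      obtain ⟨σ, h4, h5⟩ := exists_transvection r hPQ hQP h c x
      have h6 := hconj σ _ hZ
      rw [h4, h5] at h6
      rw [hmul, hmul]
      exact h6) (by
      intro A hA B hB
      rw [hf] at hA hB ⊢
      rw [Matrix.mul_sub, Matrix.sub_mul, hmul, hmul]
      exact hbr _ hA _ hB) (X := Q * Y * P) (by
      rw [hf, hback]
      exact hY) (by
      intro l hl
      apply hYs l
      rw [← hback Y, hl, Matrix.mul_smul, Matrix.smul_mul, Matrix.mul_one, hPQ])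
  exact h3 u

end

section

variable {C : Type*} [Field C] [IsAlgClosed C] [CharZero C] {A : ValuationSubring C} {Γ : Type*}
  [Group Γ] {D : ℕ} {ρ : Γ →* Matrix (Fin D) (Fin D) C}
  {ρ' : Γ →* Matrix (Fin D) (Fin D) (IsLocalRing.ResidueField A)}

/-- helper48's dichotomy, in matrix form. -/
theorem dich (hN1 : ¬ SelfDual ρ) {v f : Fin D → C} (hv : v ≠ 0) (hf : f ≠ 0) (hfv : f ⬝ᵥ v = 0)
    (hirr : Algebra.adjoin C (Set.range fun γ => ρ γ * vecMulVec v f * ρ γ⁻¹) = ⊤)
    (L : Submodule C (Matrix (Fin D) (Fin D) C)) (hbr : ∀ x ∈ L, ∀ y ∈ L, x * y - y * x ∈ L)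
    (hconj : ∀ γ, ∀ x ∈ L, ρ γ * x * ρ γ⁻¹ ∈ L) (hn : vecMulVec v f ∈ L)
    (z : Matrix (Fin D) (Fin D) C) (hz : z.trace = 0) : z ∈ L := by
  classical
  let e : Matrix (Fin D) (Fin D) C ≃ₐ[C] Module.End C (Fin D → C) := Matrix.toLinAlgEquiv'
  have he : ∀ X w, e X w = X.mulVec w := fun X w => rfl
  let R : Γ →* Module.End C (Fin D → C) :=
    (e : Matrix (Fin D) (Fin D) C →* Module.End C (Fin D → C)).comp ρ
  have hR : ∀ γ, R γ = e (ρ γ) := fun γ => rfl
  let M : Submodule C (Module.End C (Fin D → C)) := L.comap e.symm.toLinearMap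
  have memM : ∀ x, x ∈ M ↔ e.symm x ∈ L := fun x => Iff.rfl
  have happ : ∀ w, ((dotProductBilin C C f).smulRight v : Module.End C (Fin D → C)) w =
      (f ⬝ᵥ w) • v := fun w => rfl
  have hXe : e (vecMulVec v f) = (dotProductBilin C C f).smulRight v := by
    ext w i
    rw [LinearMap.comp_apply, LinearMap.comp_apply, he, Matrix.vecMulVec_mulVec, happ]
    simp [mul_comm]
  have hf' : (dotProductBilin C C f : Module.Dual C (Fin D → C)) ≠ 0 := by
    intro h
    apply hf
    ext i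
    have h3 := LinearMap.congr_fun h (Pi.single i 1)
    have h4 : f ⬝ᵥ Pi.single i 1 = 0 := h3
    rwa [dotProduct_single, mul_one] at h4
  have hirr' : ∀ W : Submodule C (Fin D → C), (∀ γ, ∀ w ∈ W,
      (dotProductBilin C C f) (R γ⁻¹ w) • R γ v ∈ W) → W = ⊥ ∨ W = ⊤ := by
    intro W hW
    by_cases h0 : W = ⊥
    · exact Or.inl h0
    right
    let St : Subalgebra C (Matrix (Fin D) (Fin D) C) :=
      { carrier := {X | ∀ w ∈ W, X.mulVec w ∈ W}
        mul_mem' := by
          intro X Y hX hY w hw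
          rw [← Matrix.mulVec_mulVec]
          exact hX _ (hY w hw)
        add_mem' := by
          intro X Y hX hY w hw
          rw [Matrix.add_mulVec]
          exact W.add_mem (hX w hw) (hY w hw)
        algebraMap_mem' := by
          intro r w hw
          rw [Algebra.algebraMap_eq_smul_one, Matrix.smul_mulVec, Matrix.one_mulVec]
          exact W.smul_mem r hw }
    have h3 : St = ⊤ := by
      rw [eq_top_iff, ← hirr]
      apply Algebra.adjoin_le
      rintro X ⟨γ, rfl⟩ w hw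
      have h4 := hW γ w hw
      rw [← Matrix.mulVec_mulVec, ← Matrix.mulVec_mulVec, Matrix.vecMulVec_mulVec,
        op_smul_eq_smul, Matrix.mulVec_smul]
      exact h4
    obtain ⟨w, hw, hw0⟩ := (Submodule.ne_bot_iff W).mp h0
    obtain ⟨i, hi⟩ : ∃ i, w i ≠ 0 := by
      by_contra hne
      push Not at hne
      exact hw0 (funext hne)
    rw [eq_top_iff]
    intro y _
    have h4 : vecMulVec y (Pi.single i (w i)⁻¹) ∈ St := by rw [h3]; trivial
    have h5 := h4 w hw
    have h6 : (vecMulVec y (Pi.single i (w i)⁻¹)).mulVec w = y := by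
      rw [Matrix.vecMulVec_mulVec]
      ext j
      simp [hi]
    rwa [h6] at h5
  have hbr' : ∀ x ∈ M, ∀ y ∈ M, x * y - y * x ∈ M := by
    intro x hx y hy
    rw [memM] at hx hy ⊢
    rw [map_sub, map_mul, map_mul]
    exact hbr _ hx _ hy
  have hconj' : ∀ γ, ∀ x ∈ M, R γ * x * R γ⁻¹ ∈ M := by
    intro γ x hx
    rw [memM] at hx ⊢
    rw [map_mul, map_mul, hR, hR, AlgEquiv.symm_apply_apply, AlgEquiv.symm_apply_apply]
    exact hconj γ _ hx
  have hn' : ((dotProductBilin C C f).smulRight v : Module.End C (Fin D → C)) ∈ M := by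
    rw [memM, ← hXe, AlgEquiv.symm_apply_apply]
    exact hn
  rcases Pool.Agent.TD.trans_dich R (v := v) (f := dotProductBilin C C f) hv hf' hfv hirr' M hbr'
    hconj' hn' with h | ⟨J, μ, hJ1, hJ2, hJ3⟩
  · have h1 := h (e z) (by
      have h4 : e z = Matrix.toLin' z := rfl
      rw [h4, Matrix.trace_toLin'_eq]
      exact hz)
    rw [memM, AlgEquiv.symm_apply_apply] at h1
    exact h1
  · exfalso
    obtain ⟨B, hB⟩ : ∃ B : Matrix (Fin D) (Fin D) C,
        B = LinearMap.toMatrix₂' C J.toLinearMap := ⟨_, rfl⟩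
    have hBapp : ∀ x y, J x y = x ⬝ᵥ B.mulVec y := by
      intro x y
      have h3 : J.toLinearMap = Matrix.toLinearMap₂' C B := by
        rw [hB, Matrix.toLinearMap₂'_toMatrix']
      have h4 : J x y = J.toLinearMap x y := rfl
      rw [h4, h3, Matrix.toLinearMap₂'_apply']
    have hform : ∀ X Y : Matrix (Fin D) (Fin D) C,
        (∀ x y, x ⬝ᵥ X.mulVec y = x ⬝ᵥ Y.mulVec y) → X = Y := by
      intro X Y h
      ext i j
      have h3 := h (Pi.single i 1) (Pi.single j 1)
      simpa using h3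
    apply hN1
    refine ⟨B, fun γ => μ γ, ?_, ?_⟩
    · intro h0
      obtain ⟨i, hi⟩ := Function.ne_iff.1 hv
      have h1 : J v = 0 := by
        ext y
        rw [LinearMap.comp_apply, LinearMap.comp_apply]
        rw [hBapp, h0, Matrix.zero_mulVec, dotProduct_zero]
        rfl
      exact hv (J.injective (by rw [h1, map_zero]))
    · intro γ
      apply hform
      intro x y
      have h3 := hJ3 γ x y
      rw [hR, he, he, hBapp, hBapp] at h3
      rw [Matrix.smul_mulVec, dotProduct_smul, smul_eq_mul, ← h3, ← Matrix.mulVec_mulVec,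
        ← Matrix.mulVec_mulVec, Matrix.dotProduct_mulVec x, Matrix.vecMul_transpose]

/-- **One representation.** -/
theorem single_big {p : ℕ} [Fact p.Prime] (hp2 : p ≠ 2) [CharP (IsLocalRing.ResidueField A) p]
    [Infinite (IsLocalRing.ResidueField A)] (hpD : ¬ p ∣ D) (hsp : ContainsSp ρ')
    (htr : ∀ γ, ∃ t : A, (t : C) = (ρ γ).trace ∧ IsLocalRing.residue A t = (ρ' γ).trace)
    (hint : ∀ (r : MonoidAlgebra A Γ) (c : C), (nfl_phi A ρ r).charpoly.IsRoot c → c ∈ A)
    (hN1 : ¬ SelfDual ρ) (L : Submodule C (Matrix (Fin D) (Fin D) C))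
    (hbr : ∀ x ∈ L, ∀ y ∈ L, x * y - y * x ∈ L)
    (hconj : ∀ γ, ∀ x ∈ L, ρ γ * x * ρ γ⁻¹ ∈ L) (hns : ∃ x ∈ L, ∀ c : C, x ≠ c • 1)
    (z : Matrix (Fin D) (Fin D) C) (hz : z.trace = 0) : ∃ x ∈ L, ∃ c : C, x = z + c • 1 := by
  classical
  have hspan := hsp.span
  obtain ⟨F, _, _, g, P, Q, hg, hPQ, hQP, hF⟩ := hsp
  have h2 : (2 : IsLocalRing.ResidueField A) ≠ 0 := by
    intro h
    have h3 : ((2 : ℕ) : IsLocalRing.ResidueField A) = 0 := by exact_mod_cast h
    rw [CharP.cast_eq_zero_iff _ p] at h3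
    exact hp2 ((Nat.prime_dvd_prime_iff_eq (Fact.out : p.Prime) Nat.prime_two).mp h3)
  have hDk : ((D : ℕ) : IsLocalRing.ResidueField A) ≠ 0 := by
    rw [Ne, CharP.cast_eq_zero_iff _ p]
    exact hpD
  have hD0 : (D : C) ≠ 0 := by
    have : D ≠ 0 := by
      rintro rfl
      exact hpD (dvd_zero p)
    exact_mod_cast this
  have hcard : Fintype.card (Fin g ⊕ Fin g) = D := by
    have h3 : Function.Injective (P.mulVecLin) := by
      intro a b hab
      have h4 : P *ᵥ a = P *ᵥ b := hab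
      have h5 := congrArg (fun z => Q *ᵥ z) h4
      simp only [Matrix.mulVec_mulVec, hQP, Matrix.one_mulVec] at h5
      exact h5
    have h4 : Function.Injective (Q.mulVecLin) := by
      intro a b hab
      have h4 : Q *ᵥ a = Q *ᵥ b := hab
      have h5 := congrArg (fun z => P *ᵥ z) h4
      simp only [Matrix.mulVec_mulVec, hPQ, Matrix.one_mulVec] at h5
      exact h5
    have h5 := LinearMap.finrank_le_finrank_of_injective h3
    have h6 := LinearMap.finrank_le_finrank_of_injective h4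
    rw [Module.finrank_fintype_fun_eq_card, Module.finrank_fintype_fun_eq_card,
      Fintype.card_fin] at h5 h6
    omega
  -- a nonzero matrix of trace zero is not scalar, over the residue field
  have hnsk : ∀ Y : Matrix (Fin D) (Fin D) (IsLocalRing.ResidueField A), Y ≠ 0 → Y.trace = 0 →
      ∀ l : IsLocalRing.ResidueField A, Y ≠ l • 1 := by
    intro Y hY0 hYt l hl
    rw [hl, Matrix.trace_smul, Matrix.trace_one, Fintype.card_fin, smul_eq_mul] at hYt
    rcases mul_eq_zero.1 hYt with h3 | h3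
    · apply hY0
      rw [hl, h3, zero_smul]
    · exact hDk h3
  -- the traceless part
  let T : Matrix (Fin D) (Fin D) C →ₗ[C] Matrix (Fin D) (Fin D) C :=
    { toFun := fun x => x - ((D : C)⁻¹ * x.trace) • 1
      map_add' := fun x y => by
        rw [Matrix.trace_add, mul_add, add_smul]
        abel
      map_smul' := fun c x => by
        rw [Matrix.trace_smul, smul_eq_mul, RingHom.id_apply, smul_sub, smul_smul]
        congr 2
        ring }
  have hT : ∀ x, T x = x - ((D : C)⁻¹ * x.trace) • 1 := fun _ => rfl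
  have hTt : ∀ x, (T x).trace = 0 := by
    intro x
    rw [hT, Matrix.trace_sub, Matrix.trace_smul, Matrix.trace_one, Fintype.card_fin, smul_eq_mul]
    field_simp
    ring
  have hinv' : ∀ γ : Γ, ρ γ * ρ γ⁻¹ = 1 := fun γ => by rw [← map_mul, mul_inv_cancel, map_one]
  have hinv : ∀ γ : Γ, ρ γ⁻¹ * ρ γ = 1 := fun γ => by rw [← map_mul, inv_mul_cancel, map_one]
  set L0 := L.map T with hL0
  have hbr0 : ∀ x ∈ L0, ∀ y ∈ L0, x * y - y * x ∈ L0 := by
    rintro _ ⟨x, hx, rfl⟩ _ ⟨y, hy, rfl⟩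
    refine ⟨x * y - y * x, hbr x hx y hy, ?_⟩
    have h3 : (x * y - y * x).trace = 0 := by
      rw [Matrix.trace_sub, Matrix.trace_mul_comm, sub_self]
    rw [hT, h3, mul_zero, zero_smul, sub_zero, hT, hT]
    generalize ((D : C)⁻¹ * x.trace) = a
    generalize ((D : C)⁻¹ * y.trace) = b
    simp only [sub_mul, mul_sub, smul_mul_assoc, mul_smul_comm, one_mul, mul_one]
    module
  have hconj0 : ∀ γ, ∀ x ∈ L0, ρ γ * x * ρ γ⁻¹ ∈ L0 := by
    rintro γ _ ⟨x, hx, rfl⟩
    refine ⟨ρ γ * x * ρ γ⁻¹, hconj γ x hx, ?_⟩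
    have h3 : (ρ γ * x * ρ γ⁻¹).trace = x.trace := by
      rw [Matrix.trace_mul_comm, ← mul_assoc, hinv, one_mul]
    rw [hT, h3, hT, mul_sub, sub_mul, mul_smul_comm, mul_one, smul_mul_assoc, hinv']
  have htr0 : ∀ x ∈ L0, x.trace = 0 := by
    rintro _ ⟨x, hx, rfl⟩
    exact hTt x
  have hne0 : L0 ≠ ⊥ := by
    obtain ⟨x, hx, hxs⟩ := hns
    rw [Submodule.ne_bot_iff]
    refine ⟨T x, ⟨x, hx, rfl⟩, ?_⟩
    rw [hT, sub_ne_zero]
    exact hxs _
  obtain ⟨Y, hY, hY0⟩ := redS_ne hspan htr hne0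
  have hYs := hnsk Y hY0 (redS_trace htr htr0 Y hY)
  have hN := sp_mem ρ' h2 hPQ hQP hF (redS A ρ ρ' L0) (redS_bracket hbr0) (redS_conj hconj0) hY hYs
  -- the generic elements
  let f : Matrix (Fin g ⊕ Fin g) (Fin g ⊕ Fin g) (IsLocalRing.ResidueField A) →ₗ[
      IsLocalRing.ResidueField A] Matrix (Fin D) (Fin D) (IsLocalRing.ResidueField A) :=
    { toFun := fun Y => P * Y * Q
      map_add' := fun A B => by rw [Matrix.mul_add, Matrix.add_mul]
      map_smul' := fun c A => by rw [Matrix.mul_smul, Matrix.smul_mul, RingHom.id_apply] }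
  obtain ⟨hdiag, hroot⟩ := diag_mem (F := F) ((redS A ρ ρ' L0).comap f) (fun u => hN u)
  obtain ⟨t, ht1, ht2⟩ := exists_generic (k := IsLocalRing.ResidueField A) hp2
    (⟨0, by omega⟩ : Fin g)
  let z₀ : Fin g := ⟨0, by omega⟩
  let E₀ : Matrix (Fin g ⊕ Fin g) (Fin g ⊕ Fin g) (IsLocalRing.ResidueField A) :=
    Matrix.single (Sum.inl z₀) (Sum.inr z₀) 1
  have hE₀ : P * E₀ * Q ∈ redS A ρ ρ' L0 := hroot z₀
  obtain ⟨v, φ, hv, hφ, hφv, hvφ⟩ := exists_rank_one hspan htr hint L0 hbr0 hPQ hQP hcard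
    (Sum.elim t (-t)) ht1 (a₀ := Sum.inl z₀) (b₀ := Sum.inr z₀)
    (by simp) ht2 (hdiag t) hE₀ (by
      have h3 : Q * (P * E₀ * Q) * P = E₀ := by
        calc Q * (P * E₀ * Q) * P = (Q * P) * E₀ * (Q * P) := by simp only [Matrix.mul_assoc]
          _ = _ := by rw [hQP, Matrix.one_mul, Matrix.mul_one]
      rw [h3]
      have h4 : (Matrix.single (Sum.inl z₀) (Sum.inr z₀) (1 : IsLocalRing.ResidueField A) :
          Matrix (Fin g ⊕ Fin g) (Fin g ⊕ Fin g) (IsLocalRing.ResidueField A))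
          (Sum.inl z₀) (Sum.inr z₀) = 1 := Matrix.single_apply_same _ _ _
      intro h5
      exact one_ne_zero (h4.symm.trans h5))
  -- the conjugates of the rank one element generate all matrices
  set 𝒜 := Algebra.adjoin C (Set.range fun γ => ρ γ * vecMulVec v φ * ρ γ⁻¹) with h𝒜
  have hnorm : ∀ γ, ∀ x ∈ 𝒜, ρ γ * x * ρ γ⁻¹ ∈ 𝒜 := by
    intro γ x hx
    rw [h𝒜] at hx ⊢
    induction hx using Algebra.adjoin_induction with
    | mem x hx =>
      obtain ⟨δ, rfl⟩ := hx
      refine Algebra.subset_adjoin ⟨γ * δ, ?_⟩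
      show ρ (γ * δ) * vecMulVec v φ * ρ (γ * δ)⁻¹ = ρ γ * (ρ δ * vecMulVec v φ * ρ δ⁻¹) * ρ γ⁻¹
      rw [_root_.mul_inv_rev, map_mul, map_mul]
      simp only [mul_assoc]
    | algebraMap c =>
      rw [Algebra.algebraMap_eq_smul_one, mul_smul_comm, mul_one, smul_mul_assoc, hinv']
      exact Subalgebra.smul_mem _ (Subalgebra.one_mem _) _
    | add x y _ _ hx hy =>
      rw [mul_add, add_mul]
      exact Subalgebra.add_mem _ hx hy
    | mul x y _ _ hx hy =>
      have h1 : ρ γ * (x * y) * ρ γ⁻¹ = (ρ γ * x * ρ γ⁻¹) * (ρ γ * y * ρ γ⁻¹) := by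
        calc ρ γ * (x * y) * ρ γ⁻¹ = ρ γ * x * 1 * y * ρ γ⁻¹ := by
              rw [mul_one]; simp only [mul_assoc]
          _ = ρ γ * x * (ρ γ⁻¹ * ρ γ) * y * ρ γ⁻¹ := by rw [hinv]
          _ = _ := by simp only [mul_assoc]
      rw [h1]
      exact Subalgebra.mul_mem _ hx hy
  have hnmem : vecMulVec v φ ∈ 𝒜 := by
    refine Algebra.subset_adjoin ⟨1, ?_⟩
    show ρ 1 * vecMulVec v φ * ρ 1⁻¹ = _
    rw [inv_one, map_one, one_mul, mul_one]
  have hnne : vecMulVec v φ ≠ 0 := by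
    intro h
    obtain ⟨i, hi⟩ := Function.ne_iff.1 hv
    obtain ⟨j, hj⟩ := Function.ne_iff.1 hφ
    exact mul_ne_zero hi hj (congrFun (congrFun h i) j)
  have hadj : 𝒜 = ⊤ := by
    have h3 : Subalgebra.toSubmodule 𝒜 = ⊤ := by
      refine alg_top hspan htr _ ?_
      obtain ⟨c, x, hc, hx1, hx2⟩ := exists_scale hspan htr hnne
      have hxm : nfl_psi A ρ' x ∈ redS A ρ ρ' (Subalgebra.toSubmodule 𝒜) := by
        refine ⟨x, ?_, rfl⟩
        rw [hx1]
        exact Subalgebra.smul_mem _ hnmem _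
      have hxs := hnsk _ hx2 (by
        obtain ⟨t, ht1, ht2⟩ := nfl_trace A htr x
        rw [hx1, Matrix.trace_smul, Matrix.trace_vecMulVec, dotProduct_comm, hφv, smul_zero] at ht1
        have h4 : t = 0 := Subtype.ext ht1
        rw [← ht2, h4, map_zero])
      refine mul_top (F := F) hPQ hQP _ ?_ ?_
      · rintro _ ⟨r, h4, rfl⟩ _ ⟨r', h5, rfl⟩
        exact ⟨r * r', by rw [map_mul]; exact Subalgebra.mul_mem 𝒜 h4 h5, map_mul _ _ _⟩
      · refine sp_mem ρ' h2 hPQ hQP hF _ ?_ ?_ hxm hxs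
        · refine redS_bracket fun x hx y hy => ?_
          exact Subalgebra.sub_mem 𝒜 (Subalgebra.mul_mem 𝒜 hx hy) (Subalgebra.mul_mem 𝒜 hy hx)
        · exact redS_conj fun γ x hx => hnorm γ x hx
    rw [← Algebra.toSubmodule_eq_top]
    exact h3
  have hfin := dich hN1 hv hφ hφv hadj L0 hbr0 hconj0 hvφ z hz
  obtain ⟨x, hx, hxz⟩ := hfin
  refine ⟨x, hx, (D : C)⁻¹ * x.trace, ?_⟩
  rw [← hxz, hT, sub_add_cancel]

end

end Pool.Agent.RP
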