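import Pool.Agent.Lib_helper29.RP.Red
import Pool.Agent.Lib_helper29.RP.Single
import Pool.Agent.Lib_helper29.NF.NormBig
import Pool.Agent.Lib_helper33.NF.NFS
import Pool.Agent.Lib_helper48.NF.BigT

/-!
# Pseudo-reflections and transvections, residual representation without stable subalgebras
-/

set_option autoImplicit false
set_option linter.unusedSectionVars false

namespace Pool.Agent.RP

open Filter Topology Matrix Pool.Agent.NF Pool.Agent.TBL

/-- No algebra of matrices, other than the scalars and the algebra of all matrices, is stable under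
conjugation by the image of `r`. -/
def NoStable {k : Type*} [Field k] {G : Type*} [Group G] {D : ℕ}
    (r : G →* Matrix (Fin D) (Fin D) k) : Prop :=
  ∀ S : Subalgebra k (Matrix (Fin D) (Fin D) k), (∀ g, ∀ x ∈ S, r g * x * r g⁻¹ ∈ S) →
    S = ⊥ ∨ S = ⊤

section

variable {C : Type*} [Field C] {A : ValuationSubring C} {Γ : Type*} [Group Γ] {D : ℕ}
  {ρ : Γ →* Matrix (Fin D) (Fin D) C}
  {ρ' : Γ →* Matrix (Fin D) (Fin D) (IsLocalRing.ResidueField A)}

/-- The conjugates of a pseudo-reflection generate all matrices. -/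
theorem adj_top (hD : 2 ≤ D)
    (hspan : Submodule.span (IsLocalRing.ResidueField A) (Set.range ρ') = ⊤)
    (htr : ∀ γ, ∃ t : A, (t : C) = (ρ γ).trace ∧ IsLocalRing.residue A t = (ρ' γ).trace)
    (hprim : NoStable ρ') {s : Γ} {v f : Fin D → C} (hv : v ≠ 0) (hf : f ≠ 0)
    (hs : ρ s = 1 + vecMulVec v f) :
    Algebra.adjoin C (Set.range fun γ => ρ γ * ρ s * ρ γ⁻¹) = ⊤ := by
  classical
  have hinv' : ∀ γ : Γ, ρ γ * ρ γ⁻¹ = 1 := fun γ => by rw [← map_mul, mul_inv_cancel, map_one]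
  have hinv : ∀ γ : Γ, ρ γ⁻¹ * ρ γ = 1 := fun γ => by rw [← map_mul, inv_mul_cancel, map_one]
  set 𝒜 := Algebra.adjoin C (Set.range fun γ => ρ γ * ρ s * ρ γ⁻¹) with h𝒜
  have hnorm : ∀ γ, ∀ x ∈ 𝒜, ρ γ * x * ρ γ⁻¹ ∈ 𝒜 := by
    intro γ x hx
    rw [h𝒜] at hx ⊢
    induction hx using Algebra.adjoin_induction with
    | mem x hx =>
      obtain ⟨δ, rfl⟩ := hx
      refine Algebra.subset_adjoin ⟨γ * δ, ?_⟩
      show ρ (γ * δ) * ρ s * ρ (γ * δ)⁻¹ = ρ γ * (ρ δ * ρ s * ρ δ⁻¹) * ρ γ⁻¹
      rw [_root_.mul_inv_rev, map_mul, map_mul]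
      simp only [mul_assoc]
    | algebraMap c =>
      rw [Algebra.algebraMap_eq_smul_one, mul_smul_comm, mul_one, smul_mul_assoc, hinv']
      exact Subalgebra.smul_mem _ (Subalgebra.one_mem _) _
    | add x y _ _ hx hy =>
      rw [mul_add, add_mul]
      exact Subalgebra.add_mem _ hx hy
    | mul x y _ _ hx hy =>
      have h1 : ρ γ * (x * y) * ρ γ⁻¹ = (ρ γ * x * ρ γ⁻¹) * (ρ γ * y * ρ γ⁻¹) := by
        calc ρ γ * (x * y) * ρ γ⁻¹ = ρ γ * x * 1 * y * ρ γ⁻¹ := by
              rw [mul_one]; simp only [mul_assoc]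
          _ = ρ γ * x * (ρ γ⁻¹ * ρ γ) * y * ρ γ⁻¹ := by rw [hinv]
          _ = _ := by simp only [mul_assoc]
      rw [h1]
      exact Subalgebra.mul_mem _ hx hy
  have hsm : ρ s ∈ 𝒜 := by
    refine Algebra.subset_adjoin ⟨1, ?_⟩
    show ρ 1 * ρ s * ρ 1⁻¹ = _
    rw [inv_one, map_one, one_mul, mul_one]
  have hnmem : vecMulVec v f ∈ 𝒜 := by
    have h1 : vecMulVec v f = ρ s - 1 := by rw [hs, add_sub_cancel_left]
    rw [h1]
    exact Subalgebra.sub_mem _ hsm (Subalgebra.one_mem _)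
  have hnne : vecMulVec v f ≠ 0 := by
    intro h
    obtain ⟨i, hi⟩ := Function.ne_iff.1 hv
    obtain ⟨j, hj⟩ := Function.ne_iff.1 hf
    exact mul_ne_zero hi hj (congrFun (congrFun h i) j)
  -- the reduction
  obtain ⟨c, x, hc, hx1, hx2⟩ := exists_scale hspan htr hnne
  have hxs : ∀ u : IsLocalRing.ResidueField A, nfl_psi A ρ' x ≠ u • 1 := by
    intro u hu
    have hu0 : u ≠ 0 := by
      rintro rfl
      apply hx2
      rw [hu, zero_smul]
    obtain ⟨w, hw, hfw⟩ : ∃ w : Fin D → C, w ≠ 0 ∧ f ⬝ᵥ w = 0 := by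
      let T : (Fin D → C) →ₗ[C] C := dotProductBilin C C f
      have hT : LinearMap.ker T ≠ ⊥ := by
        apply LinearMap.ker_ne_bot_of_finrank_lt
        rw [Module.finrank_fin_fun, Module.finrank_self]
        omega
      obtain ⟨x, hx, hx0⟩ := (Submodule.ne_bot_iff _).1 hT
      exact ⟨x, hx0, hx⟩
    have h3 : vecMulVec w w ≠ 0 := by
      intro h
      obtain ⟨i, hi⟩ := Function.ne_iff.1 hw
      exact mul_ne_zero hi hi (congrFun (congrFun h i) i)
    apply h3
    refine nfs_cancel A hspan htr x hu0 hu ?_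
    rw [hx1, smul_mul_assoc]
    have h4 : vecMulVec v f * vecMulVec w w = 0 := by
      ext i j
      rw [Matrix.mul_apply]
      have h5 : ∀ l, vecMulVec v f i l * vecMulVec w w l j = v i * w j * (f l * w l) := by
        intro l
        rw [vecMulVec_apply, vecMulVec_apply]
        ring
      simp only [h5]
      rw [← Finset.mul_sum]
      have h6 : ∑ l, f l * w l = 0 := hfw
      rw [h6, mul_zero]
      rfl
    rw [h4, smul_zero]
  let S : Subalgebra (IsLocalRing.ResidueField A)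
      (Matrix (Fin D) (Fin D) (IsLocalRing.ResidueField A)) :=
    { carrier := redS A ρ ρ' (Subalgebra.toSubmodule 𝒜)
      mul_mem' := by
        rintro _ _ ⟨r, h4, rfl⟩ ⟨r', h5, rfl⟩
        exact ⟨r * r', by rw [map_mul]; exact Subalgebra.mul_mem 𝒜 h4 h5, map_mul _ _ _⟩
      add_mem' := by
        intro a b ha hb
        exact Submodule.add_mem _ ha hb
      algebraMap_mem' := by
        intro c
        rw [Algebra.algebraMap_eq_smul_one]
        refine Submodule.smul_mem _ _ ?_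
        exact ⟨1, by rw [map_one]; exact Subalgebra.one_mem 𝒜, map_one _⟩ }
  have hS := hprim S (by
    intro g x hx
    exact redS_conj (S := Subalgebra.toSubmodule 𝒜) (fun γ x hx => hnorm γ x hx) g x hx)
  have h3 : Subalgebra.toSubmodule 𝒜 = ⊤ := by
    refine alg_top hspan htr _ ?_
    have hx : nfl_psi A ρ' x ∈ S := ⟨x, by rw [hx1]; exact Subalgebra.smul_mem 𝒜 hnmem _, rfl⟩
    rcases hS with h | h
    · exfalso
      rw [h, Algebra.mem_bot] at hx
      obtain ⟨u, hu⟩ := hx
      apply hxs u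
      rw [← hu, Algebra.algebraMap_eq_smul_one]
    · rw [eq_top_iff]
      intro y _
      have hy : y ∈ S := by rw [h]; exact Algebra.mem_top
      exact hy
  rw [← Algebra.toSubmodule_eq_top]
  exact h3

end

section

variable {k : Type*} [NontriviallyNormedField k] [IsUltrametricDist k] [CompleteSpace k]
  {G : Type*} [Group G]

attribute [local instance] matRing matAlg matUltra matComplete

variable [TopologicalSpace G] [IsTopologicalGroup G] [CompactSpace G] [TotallyDisconnectedSpace G]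

/-- **Primitive residual representation.** -/
theorem prim_core [CharZero k] [IsAlgClosed k] {p : ℕ} [hp : Fact p.Prime] (hp0 : (p : k) ≠ 0)
    (hp1 : ‖(p : k)‖ < 1) [CharP (IsLocalRing.ResidueField (VR k)) p] {D : ℕ} (hD : 3 ≤ D)
    (ρ : G →* Matrix (Fin D) (Fin D) k) (hρ : Continuous ρ)
    (ρ' : G →* Matrix (Fin D) (Fin D) (IsLocalRing.ResidueField (VR k)))
    (hspan : Submodule.span (IsLocalRing.ResidueField (VR k)) (Set.range ρ') = ⊤)
    (htr : ∀ g, ∃ t : VR k, (t : k) = (ρ g).trace ∧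
      IsLocalRing.residue (VR k) t = (ρ' g).trace)
    (hprim : NoStable ρ') (s : G) (hr : (ρ s - 1).rank ≤ 1)
    (hs : ((ρ s).det ^ 2 ≠ 1 ∧ (ρ' s = 1 ∨ ∃ σ, ∀ e : ℕ, 0 < e → ∀ c : k, ρ σ ^ e ≠ c • 1)) ∨
      ((ρ s).det = 1 ∧ ρ s ≠ 1 ∧ ¬ SelfDual ρ)) : Big p (fun _ : Unit => ρ) := by
  classical
  have hne : ρ s ≠ 1 := by
    rcases hs with h | h
    · intro h'
      apply h.1
      rw [h', Matrix.det_one, one_pow]
    · exact h.2.1
  obtain ⟨v, f, hvf⟩ := exists_vecMulVec (ρ s - 1) hr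
  have hs1 : ρ s = 1 + vecMulVec v f := by rw [← hvf, add_sub_cancel]
  have hv : v ≠ 0 := by
    rintro rfl
    apply hne
    rw [hs1, zero_vecMulVec, add_zero]
  have hf : f ≠ 0 := by
    rintro rfl
    apply hne
    rw [hs1, vecMulVec_zero, add_zero]
  have hadj := adj_top (by omega) hspan htr hprim hv hf hs1
  refine big_coreT (fun _ : Unit => ρ) hp0 hp1 (fun _ => hρ) (fun _ => s)
    (fun _ => ¬ ((ρ s).det ^ 2 ≠ 1)) ?_ ?_ ?_ ?_ ?_ ?_ (fun _ => hadj) ?_
  · intro a c _ _
    exact hr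
  · intro a ha
    exact not_not.1 ha
  · intro a c _ _ hca
    exact absurd rfl hca
  · intro a c _ _ hca
    exact absurd rfl hca
  · intro a ha
    have h := hs.resolve_left fun h => ha h.1
    exact ⟨hr, h.1, h.2.1, fun c hc => absurd rfl hc⟩
  · intro a ha J J' μ hJ hμ hJρ hJX
    have h := hs.resolve_left fun h => ha h.1
    apply h.2.2
    refine ⟨J, fun g => μ g, ?_, ?_⟩
    · rintro rfl
      rw [Matrix.zero_mul] at hJ
      have h1 := congrFun (congrFun hJ ⟨0, by omega⟩) ⟨0, by omega⟩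
      rw [Matrix.zero_apply, Matrix.one_apply_eq] at h1
      exact zero_ne_one h1
    · intro g
      have h1 := hJρ g
      have h2 : J * (J' * (ρ g)ᵀ * J) * ρ g = μ g • J := by
        rw [h1, mul_smul_comm, smul_mul_assoc, mul_assoc, ← map_mul, inv_mul_cancel, map_one,
          mul_one]
      rw [← h2]
      calc (ρ g)ᵀ * J * ρ g = (J * J') * (ρ g)ᵀ * J * ρ g := by rw [hJ, one_mul]
        _ = _ := by simp only [mul_assoc]
  · intro a ha H hH hHo
    have hfi : H.FiniteIndex :=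
      haveI := H.quotient_finite_of_isOpen hHo
      Subgroup.finiteIndex_of_finite_quotient
    have h : ρ' s = 1 ∨ ∃ σ, ∀ e : ℕ, 0 < e → ∀ c : k, ρ σ ^ e ≠ c • 1 := by
      rcases hs with h | h
      · exact h.2
      · exfalso
        apply not_not.1 ha
        rw [h.1, one_pow]
    rcases h with h | ⟨σ, hσ⟩
    · by_contra hcon
      push Not at hcon
      exact not_scalar_pr (VR k) (p := p) hD ρ ρ' hspan htr s h v f hv hf hs1 hadj H
        (fun h hh => hcon h hh)
    · refine ⟨σ ^ H.index, H.pow_index_mem σ, ?_⟩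
      intro c
      show ρ (σ ^ H.index) ≠ _
      rw [map_pow]
      exact hσ _ (Nat.pos_of_ne_zero Subgroup.FiniteIndex.index_ne_zero) c

end

end Pool.Agent.RP
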