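import Pool.Agent.Lib_helper29.RP.Fam
import Pool.Agent.Lib_helper29.RP.Prim

/-!
# The residue field of the `p`-adic complex numbers is an algebraic closure of the prime field
-/

set_option autoImplicit false
set_option linter.unusedSectionVars false

namespace Pool.Agent.RP

open Matrix Pool.Agent.NF Pool.Agent.RF

theorem exists_iso (p : ℕ) [hp : Fact p.Prime] :
    Nonempty (AlgebraicClosure (ZMod p) ≃+* IsLocalRing.ResidueField (VR ℂ_[p])) := by
  have h : VR ℂ_[p] = nv ℂ_[p] := by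
    ext x
    exact mem_VR
  rw [h]
  have hchar := residue_charP p
  let _ : Algebra (ZMod p) (IsLocalRing.ResidueField (nv ℂ_[p])) := ZMod.algebra _ p
  have halg := residue_algebraic p
  have hcl := residue_closed (nv ℂ_[p])
  have : IsAlgClosure (ZMod p) (IsLocalRing.ResidueField (nv ℂ_[p])) := ⟨hcl, halg⟩
  exact ⟨(IsAlgClosure.equiv (ZMod p) (AlgebraicClosure (ZMod p))
    (IsLocalRing.ResidueField (nv ℂ_[p]))).toRingEquiv⟩

section

variable {k k' : Type*} [Field k] [Field k'] {G : Type*} [Group G] {d : ℕ} (j : k ≃+* k')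
  (r : G →* Matrix (Fin d) (Fin d) k) (r' : G →* Matrix (Fin d) (Fin d) k')
  (hr : ∀ g, r' g = (r g).map j)

include hr

theorem span_map (h : Submodule.span k (Set.range r) = ⊤) :
    Submodule.span k' (Set.range r') = ⊤ := by
  have h1 : ∀ X : Matrix (Fin d) (Fin d) k, X ∈ Submodule.span k (Set.range r) →
      X.map j ∈ Submodule.span k' (Set.range r') := by
    intro X hX
    induction hX using Submodule.span_induction with
    | mem x hx =>
      obtain ⟨g, rfl⟩ := hx
      rw [← hr]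
      exact Submodule.subset_span ⟨g, rfl⟩
    | zero =>
      rw [Matrix.map_zero _ (map_zero j)]
      exact Submodule.zero_mem _
    | add x y _ _ hx hy =>
      rw [Matrix.map_add _ (map_add j)]
      exact Submodule.add_mem _ hx hy
    | smul c x _ hx =>
      have h2 : (c • x).map j = j c • x.map j := by
        ext a b
        simp
      rw [h2]
      exact Submodule.smul_mem _ _ hx
  rw [eq_top_iff]
  intro Y _
  have h2 := h1 (Y.map j.symm) (by rw [h]; exact Submodule.mem_top)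
  have h3 : (Y.map j.symm).map j = Y := by
    ext a b
    simp
  rwa [h3] at h2

theorem noStable_map (h : NoStable r) : NoStable r' := by
  intro S hS
  let S' : Subalgebra k (Matrix (Fin d) (Fin d) k) :=
    { carrier := {X | X.map j ∈ S}
      mul_mem' := by
        intro X Y hX hY
        show (X * Y).map j ∈ S
        rw [Matrix.map_mul]
        exact S.mul_mem hX hY
      add_mem' := by
        intro X Y hX hY
        show (X + Y).map j ∈ S
        rw [Matrix.map_add _ (map_add j)]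
        exact S.add_mem hX hY
      algebraMap_mem' := by
        intro c
        show (algebraMap k (Matrix (Fin d) (Fin d) k) c).map j ∈ S
        have h2 : (algebraMap k (Matrix (Fin d) (Fin d) k) c).map j =
            algebraMap k' (Matrix (Fin d) (Fin d) k') (j c) := by
          ext a b
          simp [Matrix.algebraMap_matrix_apply]
          split_ifs <;> simp
        rw [h2]
        exact S.algebraMap_mem _ }
  have hback : ∀ Y : Matrix (Fin d) (Fin d) k', (Y.map j.symm).map j = Y := by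
    intro Y
    ext a b
    simp
  rcases h S' (by
    intro g x hx
    show (r g * x * r g⁻¹).map j ∈ S
    rw [Matrix.map_mul, Matrix.map_mul, ← hr, ← hr]
    exact hS g _ hx) with h1 | h1
  · left
    rw [eq_bot_iff]
    intro Y hY
    have h2 : Y.map j.symm ∈ S' := by
      show (Y.map j.symm).map j ∈ S
      rw [hback]
      exact hY
    rw [h1, Algebra.mem_bot] at h2
    obtain ⟨c, hc⟩ := h2
    rw [Algebra.mem_bot]
    refine ⟨j c, ?_⟩
    rw [← hback Y, ← hc]
    ext a b
    simp [Matrix.algebraMap_matrix_apply]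
    split_ifs <;> simp
  · right
    rw [eq_top_iff]
    intro Y _
    have h2 : Y.map j.symm ∈ S' := by
      rw [h1]
      exact Algebra.mem_top
    have h3 : (Y.map j.symm).map j ∈ S := h2
    rwa [hback] at h3

end

section

variable {G : Type*} [Group G] [TopologicalSpace G] [IsTopologicalGroup G] [CompactSpace G]
  [TotallyDisconnectedSpace G] {p : ℕ} [hp : Fact p.Prime]

/-- The residual representation over the residue field of the `p`-adic complex numbers. -/
theorem exists_red' {d : ℕ} (ρ : G →* Matrix (Fin d) (Fin d) ℂ_[p])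
    (r : G →* Matrix (Fin d) (Fin d) (AlgebraicClosure (ZMod p)))
    (htr : ∀ g, ∃ t : ℤ, ‖(ρ g).trace - t‖ < 1 ∧
      (r g).trace = (t : AlgebraicClosure (ZMod p))) :
    ∃ (j : AlgebraicClosure (ZMod p) ≃+* IsLocalRing.ResidueField (VR ℂ_[p]))
      (ρ' : G →* Matrix (Fin d) (Fin d) (IsLocalRing.ResidueField (VR ℂ_[p]))),
      (∀ g, ρ' g = (r g).map j) ∧ ∀ g, ∃ t : VR ℂ_[p], (t : ℂ_[p]) = (ρ g).trace ∧
        IsLocalRing.residue (VR ℂ_[p]) t = (ρ' g).trace := by
  have hp1 : ‖(p : ℂ_[p])‖ < 1 := norm_p_lt p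
  have hcharP : CharP (IsLocalRing.ResidueField (VR ℂ_[p])) p := charP_residue hp.out hp1
  obtain ⟨j⟩ := exists_iso p
  let ρ' : G →* Matrix (Fin d) (Fin d) (IsLocalRing.ResidueField (VR ℂ_[p])) :=
    (RingHom.toMonoidHom (j.toRingHom.mapMatrix : Matrix (Fin d) (Fin d)
      (AlgebraicClosure (ZMod p)) →+*
      Matrix (Fin d) (Fin d) (IsLocalRing.ResidueField (VR ℂ_[p])))).comp r
  have hρ' : ∀ g, ρ' g = (r g).map j := fun g => rfl
  refine ⟨j, ρ', hρ', ?_⟩
  intro g
  obtain ⟨m, h1, h2⟩ := htr g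
  obtain ⟨t, ht1, ht2⟩ := residue_int h1
  refine ⟨t, ht1, ?_⟩
  have h3 : ((r g).map j).trace = j (r g).trace := by
    unfold Matrix.trace
    rw [map_sum]
    rfl
  rw [ht2, hρ', h3, h2, map_intCast]

/-- **Symplectic residual representation.** -/
theorem sp_single (hp2 : p ≠ 2) {d : ℕ} (ρ : G →* Matrix (Fin d) (Fin d) ℂ_[p])
    (hρ : Continuous ρ) (r : G →* Matrix (Fin d) (Fin d) (AlgebraicClosure (ZMod p)))
    (hsp : ContainsSp r)
    (htr : ∀ g, ∃ t : ℤ, ‖(ρ g).trace - t‖ < 1 ∧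
      (r g).trace = (t : AlgebraicClosure (ZMod p)))
    (hpD : ¬ p ∣ d)
    (hns : d < p ∨ ∃ σ, ∀ e : ℕ, 0 < e → ∀ c : ℂ_[p], ρ σ ^ e ≠ c • 1)
    (hN1 : ¬ SelfDual ρ) : Big p (fun _ : Unit => ρ) :=
  fam_big hp2 (fun _ => ρ) (fun _ => hρ) (fun _ => r) (fun _ => hsp) (fun _ => htr)
    (fun _ => hpD) (fun _ => hns) (fun _ => hN1) (fun a c h => absurd (Subsingleton.elim a c) h)

/-- **Primitive residual representation.** -/
theorem prim_single {d : ℕ} (hd : 3 ≤ d) (ρ : G →* Matrix (Fin d) (Fin d) ℂ_[p])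
    (hρ : Continuous ρ) (r : G →* Matrix (Fin d) (Fin d) (AlgebraicClosure (ZMod p)))
    (hspan : Submodule.span (AlgebraicClosure (ZMod p)) (Set.range r) = ⊤)
    (hprim : NoStable r)
    (htr : ∀ g, ∃ t : ℤ, ‖(ρ g).trace - t‖ < 1 ∧
      (r g).trace = (t : AlgebraicClosure (ZMod p)))
    (s : G) (hr : (ρ s - 1).rank ≤ 1)
    (hs : ((ρ s).det ^ 2 ≠ 1 ∧
        (r s = 1 ∨ ∃ σ, ∀ e : ℕ, 0 < e → ∀ c : ℂ_[p], ρ σ ^ e ≠ c • 1)) ∨
      ((ρ s).det = 1 ∧ ρ s ≠ 1 ∧ ¬ SelfDual ρ)) : Big p (fun _ : Unit => ρ) := by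
  have hp0 : (p : ℂ_[p]) ≠ 0 := by exact_mod_cast hp.out.ne_zero
  have hp1 : ‖(p : ℂ_[p])‖ < 1 := norm_p_lt p
  have hcharP : CharP (IsLocalRing.ResidueField (VR ℂ_[p])) p := charP_residue hp.out hp1
  obtain ⟨j, ρ', hρ', htr'⟩ := exists_red' ρ r htr
  refine prim_core hp0 hp1 hd ρ hρ ρ' (span_map j r ρ' hρ' hspan) htr'
    (noStable_map j r ρ' hρ' hprim) s hr ?_
  rcases hs with ⟨h1, h2⟩ | h
  · refine Or.inl ⟨h1, ?_⟩
    rcases h2 with h2 | h2
    · left
      rw [hρ', h2, Matrix.map_one _ (map_zero j) (map_one j)]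
    · exact Or.inr h2
  · exact Or.inr h

end

end Pool.Agent.RP
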