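import Pool.Agent.Lib_helper29.RP.Iso
import Pool.Agent.Lib_helper28.TE28.Statement
import Pool.Agent.Lib_helper29.NF.FinalD

/-!
# Powers of varieties and the Galois action modulo one prime: definitions
-/

set_option autoImplicit false

namespace Pool.Agent.RP

open Matrix NumberField
open Pool.Agent.TT (Qbar)
open Pool.Agent.TF (Stratum)
open Pool.Agent.RF (SumTraces CardTraces ContainsSp)
open Pool.Agent.NF (Reps)

section generic

variable {G : Type*} [Group G] {p : ℕ} [Fact p.Prime] {D : ℕ}

/-- No power of some element of the image of `ρ` is a scalar. -/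
def NonscalarPowers {C : Type*} [Field C] (ρ : G →* Matrix (Fin D) (Fin D) C) : Prop :=
  ∃ σ, ∀ n : ℕ, 0 < n → ∀ c : C, ρ σ ^ n ≠ c • 1

/-- Type (S): the image of the residual representation `r` contains a conjugate of a symplectic
group in `D ≥ 4` variables, `p` does not divide `D`, `D < p` or no power of some `ρ(σ)` is scalar,
and `ρ` is not a similitude of a bilinear form. -/
structure TypeS (ρ : G →* Matrix (Fin D) (Fin D) ℂ_[p])
    (r : G →* Matrix (Fin D) (Fin D) (AlgebraicClosure (ZMod p))) : Prop where
  contains : ContainsSp r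
  not_dvd : ¬ p ∣ D
  size : D < p ∨ NonscalarPowers ρ
  not_dual : ¬ SelfDual ρ

/-- Type (P): the residual representation `r` of dimension `D ≥ 3` is irreducible, no subalgebra
of the matrices is stable under its image, except the scalars and everything, and for some `s` the
difference of `ρ(s)` and the identity has rank one; either `det ρ(s)` is different from `1` and
`-1`, and `r(s) = 1` or no power of some `ρ(σ)` is scalar, or `ρ(s)` is a transvection and `ρ` is
not a similitude of a bilinear form. -/
structure TypeP (ρ : G →* Matrix (Fin D) (Fin D) ℂ_[p])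
    (r : G →* Matrix (Fin D) (Fin D) (AlgebraicClosure (ZMod p))) : Prop where
  dim : 3 ≤ D
  irr : Submodule.span (AlgebraicClosure (ZMod p)) (Set.range r) = ⊤
  no_stable : NoStable r
  refl : ∃ s, (ρ s - 1).rank ≤ 1 ∧
    (((ρ s).det ^ 2 ≠ 1 ∧ (r s = 1 ∨ NonscalarPowers ρ)) ∨
      ((ρ s).det = 1 ∧ ρ s ≠ 1 ∧ ¬ SelfDual ρ))

end generic

/-- For different `a` and `c` the functions `tr ρ(σ) * tr ρ(σ⁻¹)` are different. -/
def Unrelated {G : Type*} [Group G] {C : Type*} [Field C] {κ : Type*} {D : κ → ℕ}
    (ρ : Reps G C D) : Prop :=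
  ∀ a c, a ≠ c → ∃ σ, (ρ a σ).trace * (ρ a σ⁻¹).trace ≠ (ρ c σ).trace * (ρ c σ⁻¹).trace

/-- A finite family of character sums: for every `a` a finite family `strata a` of affine spaces
with polynomials over the integers of `K` and integral coefficients, a primitive root of unity
`ζ a` of order `p ^ e a` and an embedding of `K`, which selects one of the characters. -/
structure Sums (K : Type) [Field K] [Algebra K Qbar] (p : ℕ) (κ : Type) where
  e : κ → ℕ
  ζ : κ → 𝓞 K
  prim : ∀ a, IsPrimitiveRoot (ζ a) (p ^ e a)
  emb : κ → (K →+* Qbar)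
  num : κ → ℕ
  strata : ∀ a, Fin (num a) → Stratum K

variable {K : Type} [Field K] [Algebra K Qbar] {p : ℕ} {κ : Type} {D : κ → ℕ}

/-- The `ρ a` are continuous and have the traces `T(F)`, the character sums of the strata. -/
structure Realises (S : Sums K p κ) {C : Type} [Field C] [TopologicalSpace C] (i : Qbar →+* C)
    (ρ : Reps (Qbar ≃ₐ[K] Qbar) C D) : Prop where
  cont : ∀ a, Continuous (ρ a)
  traces : ∀ a, SumTraces (fun σ => (ρ a σ).trace) (i.comp (S.emb a)) (p ^ S.e a) (S.ζ a)
    (S.strata a)

/-- The `r a` have open kernels and the traces `N(F)`, the numbers of points of the strata. -/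
structure Residual (S : Sums K p κ) {k : Type} [Field k]
    (r : Reps (Qbar ≃ₐ[K] Qbar) k D) : Prop where
  ker : ∀ a, IsOpen ((r a).ker : Set (Qbar ≃ₐ[K] Qbar))
  traces : ∀ a, CardTraces (fun σ => (r a σ).trace) (S.strata a)

end Pool.Agent.RP
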