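import Mathlib

/-!
# Representations that preserve a bilinear form up to a factor
-/

set_option autoImplicit false

namespace Pool.Agent.RP

open Matrix

/-- The representation is a similitude of a nonzero bilinear form. -/
def SelfDual {G : Type*} [Group G] {C : Type*} [Field C] {D : ℕ}
    (ρ : G →* Matrix (Fin D) (Fin D) C) : Prop :=
  ∃ (J : Matrix (Fin D) (Fin D) C) (μ : G → C), J ≠ 0 ∧ ∀ g, (ρ g)ᵀ * J * ρ g = μ g • J

end Pool.Agent.RP
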