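import Pool.Agent.Lib_helper29.RP.Red
import Pool.Agent.Lib_helper29.NF.NormBig

/-!
# Integrality of eigenvalues
-/

set_option autoImplicit false

namespace Pool.Agent.RP

open Matrix Pool.Agent.NF

variable {C : Type*} [NontriviallyNormedField C] [IsUltrametricDist C] {G : Type*} [Group G]
  [TopologicalSpace G] [CompactSpace G] {D : ℕ}

/-- The eigenvalues of the elements of the image of the group ring are integral. -/
theorem eig_int (ρ : G →* Matrix (Fin D) (Fin D) C) (hρ : Continuous ρ)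
    (r : MonoidAlgebra (VR C) G) (c : C) (hc : (nfl_phi (VR C) ρ r).charpoly.IsRoot c) :
    c ∈ VR C := by
  classical
  -- the entries are bounded
  have h1 : ∃ B : ℝ, 0 ≤ B ∧ ∀ g i j, ‖ρ g i j‖ ≤ B := by
    have h2 : ∀ i j, ∃ B : ℝ, ∀ g, ‖ρ g i j‖ ≤ B := by
      intro i j
      have hcont : Continuous fun g => ρ g i j :=
        (continuous_apply j).comp ((continuous_apply i).comp hρ)
      obtain ⟨B, hB⟩ := (isCompact_range hcont).isBounded.exists_norm_le
      exact ⟨B, fun g => hB _ ⟨g, rfl⟩⟩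
    choose B hB using h2
    refine ⟨∑ i, ∑ j, |B i j|, Finset.sum_nonneg fun i _ => Finset.sum_nonneg fun j _ =>
      abs_nonneg _, fun g i j => ?_⟩
    refine (hB i j g).trans ((le_abs_self _).trans ?_)
    have h3 : |B i j| ≤ ∑ j, |B i j| :=
      Finset.single_le_sum (f := fun j => |B i j|) (fun j _ => abs_nonneg _) (Finset.mem_univ j)
    have h4 : ∑ j, |B i j| ≤ ∑ i, ∑ j, |B i j| :=
      Finset.single_le_sum (f := fun i => ∑ j, |B i j|)
        (fun i _ => Finset.sum_nonneg fun j _ => abs_nonneg _) (Finset.mem_univ i)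
    exact h3.trans h4
  obtain ⟨B, hB0, hB⟩ := h1
  have h2 : ∀ (r : MonoidAlgebra (VR C) G) (i j : Fin D), ‖(nfl_phi (VR C) ρ r) i j‖ ≤ B := by
    intro r
    induction r using MonoidAlgebra.induction_on with
    | of g =>
      intro i j
      rw [nfl_phi_of]
      exact hB g i j
    | add x y hx hy =>
      intro i j
      rw [map_add, Matrix.add_apply]
      exact (IsUltrametricDist.norm_add_le_max _ _).trans (max_le (hx i j) (hy i j))
    | smul a x hx =>
      intro i j
      rw [map_smul, nfl_smulMC, Matrix.smul_apply, smul_eq_mul, norm_mul]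
      have ha : ‖(a : C)‖ ≤ 1 := mem_VR.1 a.2
      calc ‖(a : C)‖ * ‖(nfl_phi (VR C) ρ x) i j‖ ≤ 1 * ‖(nfl_phi (VR C) ρ x) i j‖ :=
            mul_le_mul_of_nonneg_right ha (norm_nonneg _)
        _ ≤ B := by rw [one_mul]; exact hx i j
  -- an eigenvector
  rw [← Matrix.charpoly_toLin', ← Module.End.hasEigenvalue_iff_isRoot_charpoly] at hc
  obtain ⟨v, hv⟩ := hc.exists_hasEigenvector
  have hv0 : v ≠ 0 := hv.2
  obtain ⟨i₁, hi₁⟩ := Function.ne_iff.1 hv0
  obtain ⟨i, -, hi⟩ := Finset.exists_max_image Finset.univ (fun i => ‖v i‖) ⟨i₁, Finset.mem_univ i₁⟩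
  have hpos : 0 < ‖v i‖ := (norm_pos_iff.2 hi₁).trans_le (hi i₁ (Finset.mem_univ _))
  have hpow : ∀ n : ℕ, ((nfl_phi (VR C) ρ r) ^ n) *ᵥ v = c ^ n • v := by
    intro n
    have h3 := hv.pow_apply n
    rw [← Matrix.toLin'_pow, Matrix.toLin'_apply] at h3
    exact h3
  have hbound : ∀ n : ℕ, ‖c‖ ^ n ≤ B := by
    intro n
    have h3 := congrFun (hpow n) i
    rw [← map_pow, Matrix.mulVec, dotProduct, Pi.smul_apply, smul_eq_mul] at h3
    have h4 : ‖∑ j, (nfl_phi (VR C) ρ (r ^ n)) i j * v j‖ ≤ B * ‖v i‖ := by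
      refine IsUltrametricDist.norm_sum_le_of_forall_le_of_nonneg (mul_nonneg hB0 hpos.le)
        fun j _ => ?_
      rw [norm_mul]
      exact mul_le_mul (h2 _ i j) (hi j (Finset.mem_univ _)) (norm_nonneg _) hB0
    rw [h3, norm_mul, norm_pow] at h4
    exact le_of_mul_le_mul_right h4 hpos
  rw [mem_VR]
  by_contra hcon
  push Not at hcon
  obtain ⟨n, hn⟩ := pow_unbounded_of_one_lt B hcon
  exact absurd (hbound n) (not_le.2 hn)

end Pool.Agent.RP
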