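import Pool.Agent.Lib_helper29.RP.Single
import Pool.Agent.Lib_helper29.RP.Int
import Pool.Agent.Lib_helper9.RP.Q
import Pool.Agent.Lib_helper28.RP.P
import Pool.Agent.Lib_helper28.TE28.Res

/-!
# Families of representations whose reductions contain symplectic groups
-/

set_option autoImplicit false
set_option linter.unusedSectionVars false

namespace Pool.Agent.RP

open Filter Topology Matrix Pool.Agent.NF Pool.Agent.RF Pool.Agent.TBL

/-- The residue field of a valuation ring of an algebraically closed field is algebraically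
closed. -/
theorem residue_closed {C : Type*} [Field C] [IsAlgClosed C] (A : ValuationSubring C) :
    IsAlgClosed (IsLocalRing.ResidueField A) := by
  refine IsAlgClosed.of_exists_root _ fun f hf hirr => ?_
  have hlift : f ∈ Polynomial.lifts (IsLocalRing.residue A) := by
    rw [Polynomial.lifts_iff_coeff_lifts]
    intro n
    exact IsLocalRing.residue_surjective _
  obtain ⟨F, hF1, hF2, hF3⟩ := Polynomial.lifts_and_natDegree_eq_and_monic hlift hf
  have hdeg : (F.map (algebraMap A C)).degree ≠ 0 := by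
    rw [hF3.degree_map]
    intro h
    have h1 : f.natDegree = 0 := by
      rw [← hF2]
      exact Polynomial.natDegree_eq_zero_iff_degree_le_zero.2 h.le
    exact absurd h1 (Polynomial.natDegree_pos_iff_degree_pos.2 hirr.degree_pos).ne'
  obtain ⟨x, hx⟩ := IsAlgClosed.exists_root _ hdeg
  have hxi : IsIntegral A x := ⟨F, hF3, by
    rw [← Polynomial.eval_map]
    exact hx⟩
  obtain ⟨y, hy⟩ := IsIntegrallyClosed.isIntegral_iff.1 hxi
  refine ⟨IsLocalRing.residue A y, ?_⟩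
  have h2 : F.eval y = 0 := by
    have h3 : algebraMap A C (F.eval y) = 0 := by
      rw [← Polynomial.eval₂_at_apply, ← Polynomial.eval_map, hy]
      exact hx
    exact (map_eq_zero_iff _ (IsFractionRing.injective A C)).1 h3
  rw [← hF1, Polynomial.eval_map, Polynomial.eval₂_at_apply, h2, map_zero]

theorem containsSp_map {k k' : Type*} [Field k] [Field k'] {G : Type*} [Group G] {d : ℕ}
    (j : k →+* k') (r : G →* Matrix (Fin d) (Fin d) k) (r' : G →* Matrix (Fin d) (Fin d) k')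
    (hr : ∀ g, r' g = (r g).map j) (h : ContainsSp r) : ContainsSp r' := by
  obtain ⟨F, hF, hFk, g, P, Q, hg, hPQ, hQP, hA⟩ := h
  refine ⟨F, hF, (j.comp (algebraMap F k)).toAlgebra, g, P.map j, Q.map j, hg, ?_, ?_, ?_⟩
  · rw [← Matrix.map_mul, hPQ, Matrix.map_one _ (map_zero j) (map_one j)]
  · rw [← Matrix.map_mul, hQP, Matrix.map_one _ (map_zero j) (map_one j)]
  · intro B hB
    obtain ⟨σ, hσ⟩ := hA B hB
    refine ⟨σ, ?_⟩
    rw [hr, hσ, Matrix.map_mul, Matrix.map_mul, Matrix.map_map]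
    rfl

section

variable {k : Type*} [NontriviallyNormedField k] [IsUltrametricDist k] [CompleteSpace k]
  {κ : Type*} {D : κ → ℕ} {G : Type*} [Group G]

attribute [local instance] matRing matAlg matUltra matComplete

variable [TopologicalSpace G] [IsTopologicalGroup G] [CompactSpace G] [TotallyDisconnectedSpace G]
  [Fintype κ] [DecidableEq κ]

/-- **The logarithms are big.** -/
theorem fam_core [CharZero k] [IsAlgClosed k] {p : ℕ} [Fact p.Prime] (hp0 : (p : k) ≠ 0)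
    (hp1 : ‖(p : k)‖ < 1) (hp2 : p ≠ 2) [CharP (IsLocalRing.ResidueField (VR k)) p]
    [Infinite (IsLocalRing.ResidueField (VR k))]
    (ρ : ∀ a, G →* Matrix (Fin (D a)) (Fin (D a)) k) (hρ : ∀ a, Continuous (ρ a))
    (ρ' : ∀ a, G →* Matrix (Fin (D a)) (Fin (D a)) (IsLocalRing.ResidueField (VR k)))
    (hsp : ∀ a, ContainsSp (ρ' a))
    (htr : ∀ a g, ∃ t : VR k, (t : k) = (ρ a g).trace ∧
      IsLocalRing.residue (VR k) t = (ρ' a g).trace)
    (hpD : ∀ a, ¬ p ∣ D a)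
    (hns : ∀ a, ∀ N : Subgroup G, IsOpen (N : Set G) → ∃ h ∈ N, ∀ c : k, ρ a h ≠ c • 1)
    (hN1 : ∀ a, ¬ SelfDual (ρ a))
    (hN2 : ∀ a c, a ≠ c → ∃ g,
      (ρ a g).trace * (ρ a g⁻¹).trace ≠ (ρ c g).trace * (ρ c g⁻¹).trace) : Big p ρ := by
  classical
  intro H hH z hz
  obtain ⟨N, hn, hNo, hNH, hNs⟩ := exists_small ρ (1 : G →* k) hp0 hρ
    (by exact continuous_const) H hH
  let L0 : Submodule k (∀ a, Matrix (Fin (D a)) (Fin (D a)) k) :=
    (LS ρ (1 : G →* k) p N).map (LinearMap.fst k _ k)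
  have memL0 : ∀ y ∈ L0, ∃ ξ : k, (y, ξ) ∈ LS ρ (1 : G →* k) p N := by
    rintro y ⟨w, hw', rfl⟩
    exact ⟨w.2, hw'⟩
  have hL0 : ∀ y ξ, (y, ξ) ∈ LS ρ (1 : G →* k) p N → y ∈ L0 := fun y ξ h => ⟨(y, ξ), h, rfl⟩
  have hbr : ∀ x ∈ L0, ∀ y ∈ L0, x * y - y * x ∈ L0 := by
    intro x hx y hy
    obtain ⟨ξ, hx'⟩ := memL0 _ hx
    obtain ⟨η, hy'⟩ := memL0 _ hy
    have h3 := LS_bracket ρ (1 : G →* k) hp0 hp1 N hn hNs hx' hy'
    unfold br at h3
    have h4 : x * y - y * x = fun a => x a * y a - y a * x a := rfl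
    rw [h4]
    exact hL0 _ _ h3
  have hconj : ∀ g, ∀ x ∈ L0, (fun a => ρ a g * x a * ρ a g⁻¹) ∈ L0 := by
    intro g x hx
    obtain ⟨ξ, hx'⟩ := memL0 _ hx
    have h3 := LS_conj ρ (1 : G →* k) hp0 hp1 N hn hNs g hx'
    unfold cj at h3
    exact hL0 _ _ h3
  have hone : ∀ a (z : Matrix (Fin (D a)) (Fin (D a)) k), z.trace = 0 →
      ∃ x ∈ L0, ∃ c : k, x a = z + c • 1 := by
    intro a z hz
    let La : Submodule k (Matrix (Fin (D a)) (Fin (D a)) k) := L0.map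
      (LinearMap.proj a : (∀ a, Matrix (Fin (D a)) (Fin (D a)) k) →ₗ[k]
        Matrix (Fin (D a)) (Fin (D a)) k)
    have memLa : ∀ y ∈ La, ∃ x ∈ L0, x a = y := by
      rintro y ⟨x, hx, hxy⟩
      exact ⟨x, hx, hxy⟩
    have hLa : ∀ x ∈ L0, x a ∈ La := fun x hx => ⟨x, hx, rfl⟩
    have h1 : ∀ x ∈ La, ∀ y ∈ La, x * y - y * x ∈ La := by
      intro x' hx' y' hy'
      obtain ⟨x, hx, hxx⟩ := memLa x' hx'
      obtain ⟨y, hy, hyy⟩ := memLa y' hy'
      have h2 := hLa _ (hbr x hx y hy)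
      rw [Pi.sub_apply, Pi.mul_apply, Pi.mul_apply, hxx, hyy] at h2
      exact h2
    have h2 : ∀ g, ∀ x ∈ La, ρ a g * x * ρ a g⁻¹ ∈ La := by
      intro g x' hx'
      obtain ⟨x, hx, hxx⟩ := memLa x' hx'
      have h3 := hLa _ (hconj g x hx)
      rw [← hxx]
      exact h3
    have h3 : ∃ x ∈ La, ∀ c : k, x ≠ c • 1 := by
      obtain ⟨h, hh, hne⟩ := hns a N hNo
      refine ⟨lg k p (ρ a h), hLa (fun a => lg k p (ρ a h))
        (hL0 _ _ (lgs_mem ρ (1 : G →* k) p N hh (hNs h hh))), ?_⟩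
      intro c hc
      obtain ⟨l, hl⟩ := scalar_of_lg hp0 hp1 ((hNs h hh).1 a) hc
      exact hne l hl
    obtain ⟨y, hy, c, hyc⟩ := single_big (A := VR k) (ρ := ρ a) (ρ' := ρ' a) hp2 (hpD a)
      (hsp a) (htr a) (fun r c hc => eig_int (ρ a) (hρ a) r c hc) (hN1 a) La h1 h2 h3 z hz
    obtain ⟨x, hx, hxy⟩ := memLa y hy
    exact ⟨x, hx, c, by rw [hxy, hyc]⟩
  have h3 := goursat_tr ρ L0 hbr hconj hone hN2 z hz
  obtain ⟨ξ, h5⟩ := memL0 _ h3
  have h6 : LS ρ (1 : G →* k) p N ≤ (Submodule.span k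
      {x : ∀ a, Matrix (Fin (D a)) (Fin (D a)) k | ∃ h ∈ H,
        (∀ a, ‖ρ a h - 1‖ ≤ ‖(p : k)‖ ^ 2) ∧ x = fun a => lg k p (ρ a h)}).comap
        (LinearMap.fst k _ k) := by
    unfold LS
    rw [Submodule.span_le]
    rintro x ⟨h, hh, hsm, rfl⟩
    exact Submodule.subset_span ⟨h, hNH hh, hsm.1, rfl⟩
  exact h6 h5

end

section

variable {G : Type*} [Group G] [TopologicalSpace G] [IsTopologicalGroup G] [CompactSpace G]
  [TotallyDisconnectedSpace G] {p : ℕ} [hp : Fact p.Prime]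

theorem exists_red {κ : Type*} {D : κ → ℕ} (ρ : ∀ a, G →* Matrix (Fin (D a)) (Fin (D a)) ℂ_[p])
    (r : ∀ a, G →* Matrix (Fin (D a)) (Fin (D a)) (AlgebraicClosure (ZMod p)))
    (hsp : ∀ a, ContainsSp (r a))
    (htr : ∀ a g, ∃ t : ℤ, ‖(ρ a g).trace - t‖ < 1 ∧
      (r a g).trace = (t : AlgebraicClosure (ZMod p))) :
    ∃ ρ' : ∀ a, G →* Matrix (Fin (D a)) (Fin (D a)) (IsLocalRing.ResidueField (VR ℂ_[p])),
      (∀ a, ContainsSp (ρ' a)) ∧ ∀ a g, ∃ t : VR ℂ_[p], (t : ℂ_[p]) = (ρ a g).trace ∧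
        IsLocalRing.residue (VR ℂ_[p]) t = (ρ' a g).trace := by
  have hp1 : ‖(p : ℂ_[p])‖ < 1 := norm_p_lt p
  have hcharP : CharP (IsLocalRing.ResidueField (VR ℂ_[p])) p := charP_residue hp.out hp1
  have hclosed := residue_closed (VR ℂ_[p])
  let _ : Algebra (ZMod p) (IsLocalRing.ResidueField (VR ℂ_[p])) := ZMod.algebra _ p
  obtain ⟨j⟩ : Nonempty (AlgebraicClosure (ZMod p) →+* IsLocalRing.ResidueField (VR ℂ_[p])) :=
    ⟨(IsAlgClosed.lift : AlgebraicClosure (ZMod p) →ₐ[ZMod p]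
      IsLocalRing.ResidueField (VR ℂ_[p])).toRingHom⟩
  let ρ' : ∀ a, G →* Matrix (Fin (D a)) (Fin (D a)) (IsLocalRing.ResidueField (VR ℂ_[p])) :=
    fun a => (RingHom.toMonoidHom (j.mapMatrix : Matrix (Fin (D a)) (Fin (D a))
      (AlgebraicClosure (ZMod p)) →+*
      Matrix (Fin (D a)) (Fin (D a)) (IsLocalRing.ResidueField (VR ℂ_[p])))).comp (r a)
  have hρ' : ∀ a g, ρ' a g = (r a g).map j := fun a g => rfl
  refine ⟨ρ', fun a => containsSp_map j (r a) (ρ' a) (hρ' a) (hsp a), ?_⟩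
  intro a g
  obtain ⟨m, h1, h2⟩ := htr a g
  obtain ⟨t, ht1, ht2⟩ := residue_int h1
  refine ⟨t, ht1, ?_⟩
  have h3 : ((r a g).map j).trace = j (r a g).trace := by
    unfold Matrix.trace
    rw [map_sum]
    rfl
  rw [ht2, hρ', h3, h2, map_intCast]

theorem rd_of_int {d : ℕ} (ρ : G →* Matrix (Fin d) (Fin d) ℂ_[p]) {k : Type*} [Field k]
    (r : G →* Matrix (Fin d) (Fin d) k)
    (htr : ∀ g, ∃ t : ℤ, ‖(ρ g).trace - t‖ < 1 ∧ (r g).trace = (t : k))
    (red : nv ℂ_[p] →+* k) (hred0 : ∀ x : nv ℂ_[p], ‖(x : ℂ_[p])‖ < 1 → red x = 0) :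
    Rd (nv ℂ_[p]) red ρ r 1 1 := by
  intro g
  obtain ⟨m, h1, h2⟩ := htr g
  have hle : ‖(ρ g).trace‖ ≤ 1 := by
    have h3 : (ρ g).trace = ((ρ g).trace - m) + m := by ring
    rw [h3]
    exact (IsUltrametricDist.norm_add_le_max _ _).trans
      (max_le h1.le (IsUltrametricDist.norm_intCast_le_one _ m))
  refine ⟨⟨(ρ g).trace, hle⟩, by rw [one_mul], ?_⟩
  rw [one_mul, h2]
  have h3 : red ((⟨(ρ g).trace, hle⟩ : nv ℂ_[p]) - (m : nv ℂ_[p])) = 0 := by
    apply hred0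
    have h4 : (((⟨(ρ g).trace, hle⟩ : nv ℂ_[p]) - (m : nv ℂ_[p]) : nv ℂ_[p]) : ℂ_[p]) =
        (ρ g).trace - (m : ℂ_[p]) := by
      have h6 : (((m : nv ℂ_[p])) : ℂ_[p]) = (m : ℂ_[p]) := map_intCast (nv ℂ_[p]).subtype m
      rw [← h6]
      rfl
    rw [h4]
    exact h1
  rw [map_sub, map_intCast, sub_eq_zero] at h3
  exact h3

variable {κ : Type*} [Fintype κ] [DecidableEq κ] {D : κ → ℕ}

/-- **The logarithms are big**, over the `p`-adic complex numbers. -/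
theorem fam_big (hp2 : p ≠ 2) (ρ : ∀ a, G →* Matrix (Fin (D a)) (Fin (D a)) ℂ_[p])
    (hρ : ∀ a, Continuous (ρ a))
    (r : ∀ a, G →* Matrix (Fin (D a)) (Fin (D a)) (AlgebraicClosure (ZMod p)))
    (hsp : ∀ a, ContainsSp (r a))
    (htr : ∀ a g, ∃ t : ℤ, ‖(ρ a g).trace - t‖ < 1 ∧
      (r a g).trace = (t : AlgebraicClosure (ZMod p)))
    (hpD : ∀ a, ¬ p ∣ D a)
    (hns : ∀ a, D a < p ∨ ∃ σ, ∀ e : ℕ, 0 < e → ∀ c : ℂ_[p], ρ a σ ^ e ≠ c • 1)
    (hN1 : ∀ a, ¬ SelfDual (ρ a))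
    (hN2 : ∀ a c, a ≠ c → ∃ g,
      (ρ a g).trace * (ρ a g⁻¹).trace ≠ (ρ c g).trace * (ρ c g⁻¹).trace) : Big p ρ := by
  have hp0 : (p : ℂ_[p]) ≠ 0 := by exact_mod_cast hp.out.ne_zero
  have hp1 : ‖(p : ℂ_[p])‖ < 1 := norm_p_lt p
  have hcharP : CharP (IsLocalRing.ResidueField (VR ℂ_[p])) p := charP_residue hp.out hp1
  have hclosed := residue_closed (VR ℂ_[p])
  have hinf : Infinite (IsLocalRing.ResidueField (VR ℂ_[p])) := IsAlgClosed.instInfinite
  obtain ⟨ρ', hsp', htr'⟩ := exists_red ρ r hsp htr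
  obtain ⟨red, hred0, -⟩ := res_exists p (AlgebraicClosure (ZMod p))
  have hns' : ∀ a, ∀ N : Subgroup G, IsOpen (N : Set G) → ∃ h ∈ N, ∀ c : ℂ_[p],
      ρ a h ≠ c • 1 := by
    intro a N hN
    have hfi : N.FiniteIndex :=
      haveI := N.quotient_finite_of_isOpen hN
      Subgroup.finiteIndex_of_finite_quotient
    rcases hns a with h | ⟨σ, hσ⟩
    · exact proj_inf h (ρ a) (hsp a) (rd_of_int (ρ a) (r a) (htr a) red hred0) N
    · refine ⟨σ ^ N.normalCore.index, N.normalCore_le (Subgroup.pow_index_mem N.normalCore σ), ?_⟩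
      intro c
      rw [map_pow]
      exact hσ _ (Nat.pos_of_ne_zero Subgroup.FiniteIndex.index_ne_zero) c
  exact fam_core hp0 hp1 hp2 ρ hρ ρ' hsp' htr' hpD hns' hN1 hN2

end

end Pool.Agent.RP
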