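import Pool.Agent.Lib_helper29.NF.Big
import Pool.Agent.Lib_helper9.RP.Q

/-!
# From single representations to families
-/

set_option autoImplicit false
set_option linter.unusedSectionVars false

namespace Pool.Agent.RP

open Filter Topology Matrix Pool.Agent.NF Pool.Agent.TBL

section

variable {k : Type*} [NontriviallyNormedField k] [IsUltrametricDist k] [CompleteSpace k]
  {κ : Type*} {D : κ → ℕ} {G : Type*} [Group G]

attribute [local instance] matRing matAlg matUltra matComplete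

variable [TopologicalSpace G] [IsTopologicalGroup G] [CompactSpace G] [TotallyDisconnectedSpace G]
  [Fintype κ] [DecidableEq κ]

/-- If the logarithms of the single representations are big and the representations are not
related, then the logarithms of the family are big. -/
theorem big_of_single [CharZero k] {p : ℕ} (hp0 : (p : k) ≠ 0)
    (hp1 : ‖(p : k)‖ < 1)
    (ρ : ∀ a, G →* Matrix (Fin (D a)) (Fin (D a)) k) (hρ : ∀ a, Continuous (ρ a))
    (hone : ∀ a, Big p (fun _ : Unit => ρ a))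
    (hN2 : ∀ a c, a ≠ c → ∃ g,
      (ρ a g).trace * (ρ a g⁻¹).trace ≠ (ρ c g).trace * (ρ c g⁻¹).trace) : Big p ρ := by
  classical
  intro H hH z hz
  obtain ⟨N, hn, hNo, hNH, hNs⟩ := exists_small ρ (1 : G →* k) hp0 hρ
    (by exact continuous_const) H hH
  let L0 : Submodule k (∀ a, Matrix (Fin (D a)) (Fin (D a)) k) :=
    (LS ρ (1 : G →* k) p N).map (LinearMap.fst k _ k)
  have memL0 : ∀ y ∈ L0, ∃ ξ : k, (y, ξ) ∈ LS ρ (1 : G →* k) p N := by
    rintro y ⟨w, hw', rfl⟩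
    exact ⟨w.2, hw'⟩
  have hL0 : ∀ y ξ, (y, ξ) ∈ LS ρ (1 : G →* k) p N → y ∈ L0 := fun y ξ h => ⟨(y, ξ), h, rfl⟩
  have hbr : ∀ x ∈ L0, ∀ y ∈ L0, x * y - y * x ∈ L0 := by
    intro x hx y hy
    obtain ⟨ξ, hx'⟩ := memL0 _ hx
    obtain ⟨η, hy'⟩ := memL0 _ hy
    have h3 := LS_bracket ρ (1 : G →* k) hp0 hp1 N hn hNs hx' hy'
    unfold br at h3
    have h4 : x * y - y * x = fun a => x a * y a - y a * x a := rfl
    rw [h4]
    exact hL0 _ _ h3
  have hconj : ∀ g, ∀ x ∈ L0, (fun a => ρ a g * x a * ρ a g⁻¹) ∈ L0 := by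
    intro g x hx
    obtain ⟨ξ, hx'⟩ := memL0 _ hx
    have h3 := LS_conj ρ (1 : G →* k) hp0 hp1 N hn hNs g hx'
    unfold cj at h3
    exact hL0 _ _ h3
  have hone : ∀ a (z : Matrix (Fin (D a)) (Fin (D a)) k), z.trace = 0 →
      ∃ x ∈ L0, ∃ c : k, x a = z + c • 1 := by
    intro a z hz
    have h1 := hone a N hNo (fun _ => z) (fun _ => hz)
    let P : (∀ a, Matrix (Fin (D a)) (Fin (D a)) k) →ₗ[k]
        (Unit → Matrix (Fin (D a)) (Fin (D a)) k) := LinearMap.pi fun _ => LinearMap.proj a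
    have h2 : Submodule.span k {x : Unit → Matrix (Fin (D a)) (Fin (D a)) k |
        ∃ h ∈ N, (∀ u : Unit, ‖(fun _ : Unit => ρ a) u h - 1‖ ≤ ‖(p : k)‖ ^ 2) ∧
          x = fun u => lg k p ((fun _ : Unit => ρ a) u h)} ≤ L0.map P := by
      rw [Submodule.span_le]
      rintro x ⟨h, hh, -, rfl⟩
      exact ⟨fun a => lg k p (ρ a h),
        hL0 _ _ (lgs_mem ρ (1 : G →* k) p N hh (hNs h hh)), rfl⟩
    obtain ⟨x, hx, hxz⟩ := h2 h1
    refine ⟨x, hx, 0, ?_⟩
    have h3 := congrFun hxz ()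
    rw [zero_smul, add_zero]
    exact h3
  have h3 := goursat_tr ρ L0 hbr hconj hone hN2 z hz
  obtain ⟨ξ, h5⟩ := memL0 _ h3
  have h6 : LS ρ (1 : G →* k) p N ≤ (Submodule.span k
      {x : ∀ a, Matrix (Fin (D a)) (Fin (D a)) k | ∃ h ∈ H,
        (∀ a, ‖ρ a h - 1‖ ≤ ‖(p : k)‖ ^ 2) ∧ x = fun a => lg k p (ρ a h)}).comap
        (LinearMap.fst k _ k) := by
    unfold LS
    rw [Submodule.span_le]
    rintro x ⟨h, hh, hsm, rfl⟩
    exact Submodule.subset_span ⟨h, hNH hh, hsm.1, rfl⟩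
  exact h6 h5

end

end Pool.Agent.RP
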