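import Pool.Agent.Lib_helper29.RP.Defs
import Pool.Agent.Lib_helper29.RP.Pair
import Pool.Agent.Lib_helper29.NF.Final
import Pool.Agent.Lib_helper61.TB.Fam
import Pool.Agent.Lib_helper61.TB.ER

/-!
# Powers of varieties and the Galois action modulo one prime
-/

set_option autoImplicit false
set_option linter.unusedSectionVars false

namespace Pool.Agent.RP

open Matrix NumberField
open Pool.Agent.TT (Qbar)
open Pool.Agent.TF (Stratum FrobeniusValues strataSum strataCard fa_pow er_trace)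
open Pool.Agent.RF (SumTraces CardTraces ContainsSp norm_p_lt)
open Pool.Agent.TB (cycC cycC_one cycC_mul cycC_continuous cycC_ne_zero np_charpoly)
open Pool.Agent.TE (CompatC HasCompanions)
open Pool.Agent.NF (Reps Big Generated Balanced IrreducibleOn Companions NoRel fin_galois fin_p0
  generated_of_big balanced_of_big indep_l strong_of_irr hasCompanions_of)

section

variable {K : Type} [Field K] [NumberField K] [Algebra K Qbar] {κ : Type} [Fintype κ]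
  [DecidableEq κ] {D : κ → ℕ}

theorem rp_compat {p r ℓ : ℕ} [Fact r.Prime] [Fact ℓ.Prime] (S : Sums K p κ)
    (ip : Qbar →+* ℂ_[r]) (il : Qbar →+* ℂ_[ℓ]) (ρ : Reps (Qbar ≃ₐ[K] Qbar) ℂ_[r] D)
    (π : Reps (Qbar ≃ₐ[K] Qbar) ℂ_[ℓ] D)
    (hρ : Realises S ip ρ) (hπ : Realises S il π) : CompatC ip il ρ π := by
  classical
  choose B₁ hB₁ using hρ.traces
  choose B₂ hB₂ using hπ.traces
  refine ⟨Finset.univ.biUnion fun a => B₁ a ∪ B₂ a, ?_⟩
  intro q hq hqB Q hQ hqQ σ hσ a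
  have hqa : q ∉ B₁ a ∪ B₂ a := fun h =>
    hqB (Finset.mem_biUnion.mpr ⟨a, Finset.mem_univ a, h⟩)
  rw [Finset.mem_union, not_or] at hqa
  obtain ⟨t, ht⟩ := fa_pow 0 (1 : K) (fun F _ _ φ => strataSum (p ^ S.e a) (S.ζ a) φ (S.strata a))
    hq hQ hqQ hσ
  have h1 := ht ℂ_[r] (fun σ => (ρ a σ).trace) (ip.comp (S.emb a)) (by
    intro F _ _ φ hφ τ hτ
    rw [pow_zero, one_mul, map_one, one_mul]
    exact hB₁ a q hq hqa.1 Q hQ hqQ F φ hφ τ hτ)
  have h2 := ht ℂ_[ℓ] (fun σ => (π a σ).trace) (il.comp (S.emb a)) (by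
    intro F _ _ φ hφ τ hτ
    rw [pow_zero, one_mul, map_one, one_mul]
    exact hB₂ a q hq hqa.2 Q hQ hqQ F φ hφ τ hτ)
  have hinj : ∀ {k : Type} [Field k] {d : ℕ} (τ : (Qbar ≃ₐ[K] Qbar) →* Matrix (Fin d) (Fin d) k),
      Function.Injective (Matrix.toLin' (τ σ⁻¹)) := by
    intro k _ d τ x y hxy
    have h3 : Matrix.toLin' (τ σ) (Matrix.toLin' (τ σ⁻¹) x) =
        Matrix.toLin' (τ σ) (Matrix.toLin' (τ σ⁻¹) y) := by rw [hxy]
    rw [← Matrix.toLin'_mul_apply, ← Matrix.toLin'_mul_apply, ← map_mul, mul_inv_cancel, map_one,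
      Matrix.toLin'_one, LinearMap.id_apply, LinearMap.id_apply] at h3
    exact h3
  obtain ⟨f, hf1, hf2⟩ := np_charpoly (ip.comp (S.emb a)) (il.comp (S.emb a))
    (Matrix.toLin' (ρ a σ⁻¹)) (Matrix.toLin' (π a σ⁻¹)) (hinj (ρ a)) (hinj (π a)) t (by
    intro j hj
    have h3 : ρ a (σ⁻¹ ^ j) = ρ a σ⁻¹ ^ j := map_pow _ _ _
    rw [← h1 j hj, h3, ← Matrix.toLin'_pow, Matrix.trace_toLin'_eq]) (by
    intro j hj
    have h3 : π a (σ⁻¹ ^ j) = π a σ⁻¹ ^ j := map_pow _ _ _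
    rw [← h2 j hj, h3, ← Matrix.toLin'_pow, Matrix.trace_toLin'_eq])
  refine ⟨f.map (S.emb a), ?_, ?_⟩
  · rw [Polynomial.map_map, ← hf1, Matrix.charpoly_toLin']
  · rw [Polynomial.map_map, ← hf2, Matrix.charpoly_toLin']

/-- From big logarithms at `p` to the conclusion at all primes. -/
theorem powers_of_big {p : ℕ} [Fact p.Prime] (hD : ∀ a, 3 ≤ D a) (ip : Qbar →+* ℂ_[p])
    (ρ : Reps (Qbar ≃ₐ[K] Qbar) ℂ_[p] D) (hρ : ∀ a, Continuous (ρ a)) (hb : Big p ρ) (w : κ → ℕ)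
    {m : ℕ} (j : Fin m → κ) (hi : NoRel (cycC p) w ρ j) :
    Generated (cycC p) w ρ j ∧
      ∀ (ℓ : ℕ) [Fact ℓ.Prime] (il : Qbar →+* ℂ_[ℓ]) (π : Reps (Qbar ≃ₐ[K] Qbar) ℂ_[ℓ] D),
        (∀ a, Continuous (π a)) → CompatC ip il ρ π → Balanced (cycC ℓ) w π j ∧
          (IrreducibleOn π ⊤ → Generated (cycC ℓ) w π j) ∧
          (Companions ip il π → IrreducibleOn π ⊤) := by
  have hgal := fin_galois K
  have hD0 : ∀ a, 0 < D a := fun a => by have := hD a; omega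
  have hbT : ∀ H : Subgroup (Qbar ≃ₐ[K] Qbar), IsOpen (H : Set (Qbar ≃ₐ[K] Qbar)) →
      Pool.Agent.TE.Big p ρ H := fun H hH =>
    hb.toTE (fin_p0 p) (Pool.Agent.TF.cm_norm_p p) H hH
  refine ⟨generated_of_big hD0 w ρ hρ hb j hi, ?_⟩
  intro ℓ _ il π hπ hc
  refine ⟨balanced_of_big ip il hD0 w ρ hρ hb π hc j hi, fun hirr => ?_, fun hcp => ?_⟩
  · have hbl : Big ℓ π := Pool.Agent.NF.Big.ofTE (fin_p0 ℓ) (Pool.Agent.TF.cm_norm_p ℓ) hπ
      fun H hH =>
      Pool.Agent.TE.bigL_irr ip il ρ π hρ hπ hD hc hbT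
        (fun a H hH U hU => strong_of_irr ip il ρ π hρ hD hc hb a
          (fun W hW => hirr a W fun h _ w hw => hW h w hw) H hH U hU) H hH
    exact generated_of_big hD0 w π hπ hbl j (indep_l ip il ρ hρ π hc w j hi)
  · intro a W hW
    exact Pool.Agent.TE.irred_l ip il ρ π hρ hc hbT (hasCompanions_of ip il π hcp) a ⊤
      isOpen_univ W hW

theorem dim_of_sp {k : Type*} [Field k] {G : Type*} [Group G] {d : ℕ}
    {r : G →* Matrix (Fin d) (Fin d) k} (h : ContainsSp r) : 4 ≤ d := by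
  obtain ⟨F, _, _, g, P, Q, hg, hPQ, hQP, -⟩ := h
  have h3 : Function.Injective (P.mulVecLin) := by
    intro a b hab
    have h4 : P *ᵥ a = P *ᵥ b := hab
    have h5 := congrArg (fun z => Q *ᵥ z) h4
    simp only [Matrix.mulVec_mulVec, hQP, Matrix.one_mulVec] at h5
    exact h5
  have h5 := LinearMap.finrank_le_finrank_of_injective h3
  rw [Module.finrank_fintype_fun_eq_card, Module.finrank_fintype_fun_eq_card,
    Fintype.card_fin, Fintype.card_sum, Fintype.card_fin] at h5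
  omega

/-- **Residual images and all powers.** -/
theorem residual_powers {p : ℕ} [hp : Fact p.Prime] (hp2 : p ≠ 2) (S : Sums K p κ)
    (r : Reps (Qbar ≃ₐ[K] Qbar) (AlgebraicClosure (ZMod p)) D) (hr : Residual S r)
    (ip : Qbar →+* ℂ_[p]) (ρ : Reps (Qbar ≃ₐ[K] Qbar) ℂ_[p] D) (hρ : Realises S ip ρ)
    (ht : ∀ a, TypeS (ρ a) (r a) ∨ TypeP (ρ a) (r a)) (hu : Unrelated ρ) (w : κ → ℕ)
    {m : ℕ} (j : Fin m → κ) (hi : NoRel (cycC p) w ρ j) :
    Generated (cycC p) w ρ j ∧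
      ∀ (ℓ : ℕ) [Fact ℓ.Prime] (il : Qbar →+* ℂ_[ℓ]) (π : Reps (Qbar ≃ₐ[K] Qbar) ℂ_[ℓ] D),
        Realises S il π → Balanced (cycC ℓ) w π j ∧
          (IrreducibleOn π ⊤ → Generated (cycC ℓ) w π j) ∧
          (Companions ip il π → IrreducibleOn π ⊤) := by
  have hgal := fin_galois K
  have hchar : CharP (AlgebraicClosure (ZMod p)) p := inferInstance
  have htr : ∀ a g, ∃ t : ℤ, ‖(ρ a g).trace - t‖ < 1 ∧
      (r a g).trace = (t : AlgebraicClosure (ZMod p)) := by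
    intro a g
    obtain ⟨t, h1, h2⟩ := er_trace hp.out (S.prim a) (S.strata a) (norm_p_lt p)
      (ip.comp (S.emb a)) (T := fun σ => (ρ a σ).trace) (hρ.cont a).matrix_trace (hρ.traces a)
      (r a) (hr.ker a) (hr.traces a) g
    exact ⟨t, h1, h2.symm⟩
  have hD : ∀ a, 3 ≤ D a := by
    intro a
    rcases ht a with h | h
    · have := dim_of_sp h.contains
      omega
    · exact h.dim
  have hb : Big p ρ := by
    refine big_of_single (fin_p0 p) (norm_p_lt p) ρ hρ.cont (fun a => ?_) hu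
    rcases ht a with h | h
    · exact sp_single hp2 (ρ a) (hρ.cont a) (r a) h.contains (htr a) h.not_dvd h.size h.not_dual
    · obtain ⟨s, hs1, hs2⟩ := h.refl
      exact prim_single h.dim (ρ a) (hρ.cont a) (r a) h.irr h.no_stable (htr a) s hs1 hs2
  obtain ⟨h1, h2⟩ := powers_of_big hD ip ρ hρ.cont hb w j hi
  exact ⟨h1, fun ℓ _ il π hπ => h2 ℓ il π hπ.cont (rp_compat S ip il ρ π hρ hπ)⟩

end

end Pool.Agent.RP
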