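import Pool.Agent.Lib_helper33.NF.NFL

/-!
# Reduction of subspaces stable under conjugation

`A` is a valuation ring of `C` with residue field `κ`; the group ring `A[Γ]` maps to the matrices
over `C` (`nfl_phi`) and over `κ` (`nfl_psi`).
-/

set_option autoImplicit false

namespace Pool.Agent.RP

open Matrix Pool.Agent.NF

section

variable {C : Type*} [Field C] (A : ValuationSubring C) {Γ : Type*} [Group Γ] {D : ℕ}
  (ρ : Γ →* Matrix (Fin D) (Fin D) C)
  (ρ' : Γ →* Matrix (Fin D) (Fin D) (IsLocalRing.ResidueField A))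

/-- The reductions of the elements of the group ring that lie in the subspace `S`. -/
noncomputable def redS (S : Submodule C (Matrix (Fin D) (Fin D) C)) :
    Submodule (IsLocalRing.ResidueField A)
      (Matrix (Fin D) (Fin D) (IsLocalRing.ResidueField A)) where
  carrier := {M | ∃ r, nfl_phi A ρ r ∈ S ∧ nfl_psi A ρ' r = M}
  add_mem' := by
    rintro _ _ ⟨r, h1, rfl⟩ ⟨r', h2, rfl⟩
    exact ⟨r + r', by rw [map_add]; exact S.add_mem h1 h2, map_add _ _ _⟩
  zero_mem' := ⟨0, by rw [map_zero]; exact S.zero_mem, map_zero _⟩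
  smul_mem' := by
    rintro c _ ⟨r, h1, rfl⟩
    obtain ⟨a, rfl⟩ := IsLocalRing.residue_surjective c
    refine ⟨a • r, ?_, ?_⟩
    · rw [map_smul, nfl_smulMC]
      exact S.smul_mem _ h1
    · rw [map_smul, nfl_smulMK]

variable {A ρ ρ'}

theorem mem_redS {S : Submodule C (Matrix (Fin D) (Fin D) C)}
    {M : Matrix (Fin D) (Fin D) (IsLocalRing.ResidueField A)} :
    M ∈ redS A ρ ρ' S ↔ ∃ r, nfl_phi A ρ r ∈ S ∧ nfl_psi A ρ' r = M := Iff.rfl

theorem redS_bracket {S : Submodule C (Matrix (Fin D) (Fin D) C)}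
    (hS : ∀ x ∈ S, ∀ y ∈ S, x * y - y * x ∈ S) :
    ∀ x ∈ redS A ρ ρ' S, ∀ y ∈ redS A ρ ρ' S, x * y - y * x ∈ redS A ρ ρ' S := by
  rintro _ ⟨r, h1, rfl⟩ _ ⟨r', h2, rfl⟩
  refine ⟨r * r' - r' * r, ?_, ?_⟩
  · rw [map_sub, map_mul, map_mul]
    exact hS _ h1 _ h2
  · rw [map_sub, map_mul, map_mul]

theorem redS_conj {S : Submodule C (Matrix (Fin D) (Fin D) C)}
    (hS : ∀ γ, ∀ x ∈ S, ρ γ * x * ρ γ⁻¹ ∈ S) :
    ∀ γ, ∀ x ∈ redS A ρ ρ' S, ρ' γ * x * ρ' γ⁻¹ ∈ redS A ρ ρ' S := by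
  rintro γ _ ⟨r, h1, rfl⟩
  refine ⟨MonoidAlgebra.of A Γ γ * r * MonoidAlgebra.of A Γ γ⁻¹, ?_, ?_⟩
  · rw [map_mul, map_mul, nfl_phi_of, nfl_phi_of]
    exact hS γ _ h1
  · rw [map_mul, map_mul, nfl_psi_of, nfl_psi_of]

theorem redS_trace (htr : ∀ γ, ∃ t : A, (t : C) = (ρ γ).trace ∧
    IsLocalRing.residue A t = (ρ' γ).trace) {S : Submodule C (Matrix (Fin D) (Fin D) C)}
    (hS : ∀ x ∈ S, x.trace = 0) : ∀ x ∈ redS A ρ ρ' S, x.trace = 0 := by
  rintro _ ⟨r, h1, rfl⟩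
  obtain ⟨t, ht1, ht2⟩ := nfl_trace A htr r
  rw [hS _ h1] at ht1
  have h3 : t = 0 := Subtype.ext ht1
  rw [← ht2, h3, map_zero]

/-- Every nonzero matrix has a multiple with a nonzero reduction. -/
theorem exists_scale (hspan : Submodule.span (IsLocalRing.ResidueField A) (Set.range ρ') = ⊤)
    (htr : ∀ γ, ∃ t : A, (t : C) = (ρ γ).trace ∧ IsLocalRing.residue A t = (ρ' γ).trace)
    {X : Matrix (Fin D) (Fin D) C} (hX : X ≠ 0) :
    ∃ (c : C) (x : MonoidAlgebra A Γ), c ≠ 0 ∧ nfl_phi A ρ x = c • X ∧ nfl_psi A ρ' x ≠ 0 := by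
  classical
  have hr0 : ∀ a : Fin D × Fin D, ∃ r, nfl_psi A ρ' r = Matrix.single a.1 a.2 1 :=
    fun a => nfl_surj A hspan _
  choose r0 hr0 using hr0
  have hb := nfl_basis A hspan htr r0 hr0
  have hX0 : X ∈ Submodule.span C (Set.range fun a => nfl_phi A ρ (r0 a)) := by
    rw [hb]
    exact Submodule.mem_top
  obtain ⟨c, hc⟩ := (Submodule.mem_span_range_iff_exists_fun C).1 hX0
  have hcne : ∃ a, c a ≠ 0 := by
    by_contra hne
    push Not at hne
    apply hX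
    rw [← hc]
    exact Finset.sum_eq_zero fun a _ => by rw [hne, zero_smul]
  obtain ⟨a0, ha0, t, ht1, ht2⟩ := nfl_scale A c hcne
  refine ⟨(c a0)⁻¹, ∑ a, t a • r0 a, inv_ne_zero ha0, ?_, ?_⟩
  · rw [map_sum, ← hc, Finset.smul_sum]
    refine Finset.sum_congr rfl fun a _ => ?_
    rw [map_smul, nfl_smulMC, ht2, smul_smul]
  · intro h
    have h6 := congrFun (congrFun h a0.1) a0.2
    rw [map_sum, Matrix.sum_apply, Finset.sum_eq_single a0] at h6
    · rw [map_smul, nfl_smulMK, hr0, ht1, map_one, one_smul, Matrix.single_apply_same] at h6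
      exact one_ne_zero h6
    · intro a _ ha
      rw [map_smul, nfl_smulMK, hr0, Matrix.smul_apply, Matrix.single_apply_of_ne, smul_zero]
      intro h
      exact ha (Prod.ext h.1 h.2)
    · intro h
      exact absurd (Finset.mem_univ _) h

theorem redS_ne (hspan : Submodule.span (IsLocalRing.ResidueField A) (Set.range ρ') = ⊤)
    (htr : ∀ γ, ∃ t : A, (t : C) = (ρ γ).trace ∧ IsLocalRing.residue A t = (ρ' γ).trace)
    {S : Submodule C (Matrix (Fin D) (Fin D) C)} (hS : S ≠ ⊥) :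
    ∃ Y ∈ redS A ρ ρ' S, Y ≠ 0 := by
  obtain ⟨X, hX, hX0⟩ := (Submodule.ne_bot_iff S).1 hS
  obtain ⟨c, x, -, h1, h2⟩ := exists_scale hspan htr hX0
  exact ⟨_, ⟨x, by rw [h1]; exact S.smul_mem c hX, rfl⟩, h2⟩

/-- If a subalgebra contains elements reducing to all matrices, it is everything. -/
theorem alg_top (hspan : Submodule.span (IsLocalRing.ResidueField A) (Set.range ρ') = ⊤)
    (htr : ∀ γ, ∃ t : A, (t : C) = (ρ γ).trace ∧ IsLocalRing.residue A t = (ρ' γ).trace)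
    (S : Submodule C (Matrix (Fin D) (Fin D) C)) (hS : redS A ρ ρ' S = ⊤) : S = ⊤ := by
  have hr1 : ∀ a : Fin D × Fin D, ∃ r, nfl_phi A ρ r ∈ S ∧
      nfl_psi A ρ' r = Matrix.single a.1 a.2 1 := by
    intro a
    have h1 : (Matrix.single a.1 a.2 1 :
        Matrix (Fin D) (Fin D) (IsLocalRing.ResidueField A)) ∈ redS A ρ ρ' S := by
      rw [hS]
      exact Submodule.mem_top
    exact h1
  choose r1 hr1 using hr1
  have hb1 := nfl_basis A hspan htr r1 fun a => (hr1 a).2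
  refine eq_top_iff.2 fun M _ => ?_
  have hM : M ∈ Submodule.span C (Set.range fun a => nfl_phi A ρ (r1 a)) := by
    rw [hb1]
    exact Submodule.mem_top
  have hle : Submodule.span C (Set.range fun a => nfl_phi A ρ (r1 a)) ≤ S := by
    rw [Submodule.span_le]
    rintro _ ⟨a, rfl⟩
    exact (hr1 a).1
  exact hle hM

end

end Pool.Agent.RP
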